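import Mathlib

set_option autoImplicit false
set_option linter.style.haveILetI false

open TensorProduct

namespace Pool.Agent.H789R3

/-- A finite type algebra over a field `κ` with only finitely many `κ`-algebra maps to an
algebraically closed extension is finite. -/
theorem finite_of_finite_homs {κ F Ω : Type*} [Field κ] [CommRing F] [Field Ω] [IsAlgClosed Ω]
    [Algebra κ F] [Algebra κ Ω] [Algebra.FiniteType κ F]
    (hfin : Finite (F →ₐ[κ] Ω)) : Module.Finite κ F := by
  rw [Module.finite_iff_krullDimLE_zero]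
  have hJ : IsJacobsonRing F := isJacobsonRing_of_finiteType (A := κ)
  -- each maximal ideal is the kernel of a hom
  have key : ∀ M : Ideal F, M.IsMaximal → ∃ ψ : F →ₐ[κ] Ω, RingHom.ker ψ = M := by
    intro M hM
    letI : Field (F ⧸ M) := Ideal.Quotient.field M
    haveI : Module.Finite κ (F ⧸ M) := finite_of_finite_type_of_isJacobsonRing κ (F ⧸ M)
    haveI : Algebra.IsAlgebraic κ (F ⧸ M) := Algebra.IsAlgebraic.of_finite κ (F ⧸ M)
    let g : (F ⧸ M) →ₐ[κ] Ω := IsAlgClosed.lift
    refine ⟨g.comp (Ideal.Quotient.mkₐ κ M), ?_⟩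
    ext x
    rw [RingHom.mem_ker]
    simp only [AlgHom.comp_apply, Ideal.Quotient.mkₐ_eq_mk]
    rw [map_eq_zero_iff g g.toRingHom.injective, Ideal.Quotient.eq_zero_iff_mem]
  have hmax : {M : Ideal F | M.IsMaximal}.Finite := by
    have : {M : Ideal F | M.IsMaximal} ⊆ Set.range (fun ψ : F →ₐ[κ] Ω => RingHom.ker ψ) := by
      intro M hM
      obtain ⟨ψ, hψ⟩ := key M hM
      exact ⟨ψ, hψ⟩
    exact (Set.finite_range _).subset this
  rw [Ring.krullDimLE_zero_iff]
  intro P hP
  have h1 : P.jacobson = P := hJ.out hP.isRadical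
  have hfin2 : {J : Ideal F | P ≤ J ∧ J.IsMaximal}.Finite := hmax.subset (fun J hJ => hJ.2)
  have h2 : sInf {J : Ideal F | P ≤ J ∧ J.IsMaximal} ≤ P := le_of_eq h1
  classical
  obtain ⟨s, hs⟩ := hfin2.exists_finset
  have h3 : s.inf id ≤ P := by
    refine le_trans ?_ h2
    refine le_sInf ?_
    intro J hJ
    exact Finset.inf_le ((hs J).2 hJ)
  obtain ⟨J, hJs, hJP⟩ := (Ideal.IsPrime.inf_le' hP).1 h3
  have hJ2 := (hs J).1 hJs
  have : P = J := le_antisymm hJ2.1 hJP
  rw [this]; exact hJ2.2

theorem quasiFiniteAt_of_finite_homs {A R Ω : Type*} [CommRing A] [CommRing R] [Field Ω]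
    [IsAlgClosed Ω] [Algebra A R] [Algebra.FiniteType A R] (μ : A →+* Ω)
    (hfin : {φ : R →+* Ω | φ.comp (algebraMap A R) = μ}.Finite) (φ : R →+* Ω)
    (hφ : φ.comp (algebraMap A R) = μ) [(RingHom.ker φ).IsPrime] :
    Algebra.QuasiFiniteAt A (RingHom.ker φ) := by
  haveI hp : (RingHom.ker μ).IsPrime := RingHom.ker_isPrime μ
  set p := RingHom.ker μ with hpdef
  let ι : p.ResidueField →+* Ω := Ideal.ResidueField.lift p μ le_rfl (by
    intro a ha
    simp only [Submonoid.mem_comap, IsUnit.mem_submonoid_iff]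
    exact isUnit_iff_ne_zero.2 (fun h => ha ((RingHom.mem_ker).2 h)))
  letI : Algebra p.ResidueField Ω := ι.toAlgebra
  letI : Algebra A Ω := μ.toAlgebra
  haveI : IsScalarTower A p.ResidueField Ω := IsScalarTower.of_algebraMap_eq (by
    intro x
    change μ x = ι _
    simp [ι])
  haveI hlo : (RingHom.ker φ).LiesOver p := ⟨by
    ext x
    simp only [Ideal.under_def, Ideal.mem_comap, RingHom.mem_ker, hpdef]
    rw [← hφ]; rfl⟩
  have hfin' : Finite (p.Fiber R →ₐ[p.ResidueField] Ω) := by
    have hinj : Function.Injective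
        (fun ψ : p.Fiber R →ₐ[p.ResidueField] Ω =>
          (⟨ψ.toRingHom.comp (Algebra.TensorProduct.includeRight (R := A) (A := p.ResidueField)
            (B := R)).toRingHom, by
              ext a
              simp only [AlgHom.toRingHom_eq_coe, RingHom.coe_comp, RingHom.coe_coe,
                Function.comp_apply]
              rw [AlgHom.commutes]
              rw [IsScalarTower.algebraMap_apply A p.ResidueField (p.Fiber R), AlgHom.commutes]
              rw [← IsScalarTower.algebraMap_apply]; rfl⟩ :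
            {φ : R →+* Ω | φ.comp (algebraMap A R) = μ})) := by
      intro ψ₁ ψ₂ h
      have h' := congrArg Subtype.val h
      simp only at h'
      apply Algebra.TensorProduct.ext
      · ext
      · apply AlgHom.ext
        intro x
        exact RingHom.congr_fun h' x
    haveI : Finite {φ : R →+* Ω | φ.comp (algebraMap A R) = μ} := hfin
    exact Finite.of_injective _ hinj
  haveI : Module.Finite p.ResidueField (p.Fiber R) := finite_of_finite_homs (Ω := Ω) hfin'
  let Q := (PrimeSpectrum.preimageEquivFiber A R ⟨p, hp⟩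
    ⟨⟨RingHom.ker φ, inferInstance⟩, by
      ext x
      simp only [PrimeSpectrum.comap_asIdeal, Ideal.mem_comap, RingHom.mem_ker, hpdef]
      rw [← hφ]; rfl⟩)
  have hQ : Q.asIdeal.comap Algebra.TensorProduct.includeRight.toRingHom = RingHom.ker φ :=
    congr($((PrimeSpectrum.preimageEquivFiber A R ⟨p, hp⟩).symm_apply_apply
      ⟨⟨RingHom.ker φ, inferInstance⟩, by
      ext x
      simp only [PrimeSpectrum.comap_asIdeal, Ideal.mem_comap, RingHom.mem_ker, hpdef]
      rw [← hφ]; rfl⟩).1.asIdeal)
  haveI : Algebra.QuasiFiniteAt p.ResidueField Q.asIdeal := inferInstance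
  exact Algebra.QuasiFiniteAt.of_quasiFiniteAt_residueField p _ Q.asIdeal hQ

end Pool.Agent.H789R3
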