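import Mathlib
import Pool.Agent.H789R3.QF

set_option autoImplicit false
set_option linter.style.haveILetI false

open Cardinal

namespace Pool.Agent.H789R3

/-- Number of extensions of an embedding of an integrally closed domain is at least the degree of
any integral element. -/
theorem natDegree_minpoly_le {A R : Type*} [CommRing A] [IsDomain A] [IsIntegrallyClosed A]
    [CharZero A] [CommRing R] [IsDomain R] [Algebra A R] [Algebra.IsAlgebraic A R]
    (hinj : Function.Injective (algebraMap A R)) (lam : A →+* ℂ)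
    (hlam : Function.Injective lam) (a : R) (ha : IsIntegral A a) :
    ((minpoly A a).natDegree : ℕ∞) ≤ {φ : R →+* ℂ | φ.comp (algebraMap A R) = lam}.encard := by
  let K := FractionRing A
  let L := FractionRing R
  haveI : FaithfulSMul A R := (faithfulSMul_iff_algebraMap_injective A R).2 hinj
  haveI : IsScalarTower A R L := inferInstance
  haveI : FaithfulSMul A L := (faithfulSMul_iff_algebraMap_injective A L).2 (by
    rw [IsScalarTower.algebraMap_eq A R L]
    exact (IsFractionRing.injective R L).comp hinj)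
  letI algKL : Algebra K L := FractionRing.liftAlgebra A L
  haveI : IsScalarTower A K L := FractionRing.isScalarTower_liftAlgebra A L
  letI algAC : Algebra A ℂ := lam.toAlgebra
  haveI : FaithfulSMul A ℂ := (faithfulSMul_iff_algebraMap_injective A ℂ).2 hlam
  letI algKC : Algebra K ℂ := FractionRing.liftAlgebra A ℂ
  haveI : IsScalarTower A K ℂ := FractionRing.isScalarTower_liftAlgebra A ℂ
  haveI : CharZero K := charZero_of_injective_algebraMap (IsFractionRing.injective A K)
  haveI hAL : Algebra.IsAlgebraic A L := by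
    haveI : Algebra.IsAlgebraic R L := IsFractionRing.comap_isAlgebraic_iff.2
      (by infer_instance : Algebra.IsAlgebraic L L)
    exact Algebra.IsAlgebraic.trans A R L
  haveI hKL : Algebra.IsAlgebraic K L := IsFractionRing.comap_isAlgebraic_iff.1 hAL
  have hmin : minpoly K (algebraMap R L a) = (minpoly A a).map (algebraMap A K) :=
    minpoly.isIntegrallyClosed_eq_field_fractions K L ha
  have hdeg : (minpoly K (algebraMap R L a)).natDegree = (minpoly A a).natDegree := by
    rw [hmin]
    exact (minpoly.monic ha).natDegree_map _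
  have hsep : (minpoly K (algebraMap R L a)).Separable :=
    (minpoly.irreducible (Algebra.IsIntegral.isIntegral _)).separable
  have hcard : Fintype.card ((minpoly K (algebraMap R L a)).rootSet ℂ)
      = (minpoly K (algebraMap R L a)).natDegree :=
    Polynomial.card_rootSet_eq_natDegree hsep (IsAlgClosed.splits _)
  rw [← hdeg, ← hcard]
  have hrange := Algebra.IsAlgebraic.range_eval_eq_rootSet_minpoly (F := K) (K := L) ℂ
    (algebraMap R L a)
  have hsub : ((minpoly K (algebraMap R L a)).rootSet ℂ) ⊆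
      (fun φ : R →+* ℂ => φ a) '' {φ : R →+* ℂ | φ.comp (algebraMap A R) = lam} := by
    rw [← hrange]
    rintro _ ⟨ψ, rfl⟩
    refine ⟨ψ.toRingHom.comp (algebraMap R L), ?_, rfl⟩
    simp only [Set.mem_ofPred_eq]
    ext x
    have h1 : ψ (algebraMap A L x) = algebraMap A ℂ x := by
      rw [IsScalarTower.algebraMap_apply A K L, AlgHom.commutes,
        ← IsScalarTower.algebraMap_apply]
    exact h1
  calc ((Fintype.card ((minpoly K (algebraMap R L a)).rootSet ℂ) : ℕ) : ℕ∞)
      = ((minpoly K (algebraMap R L a)).rootSet ℂ).encard := by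
        rw [Set.encard_eq_coe_toFinset_card, Set.toFinset_card]
    _ ≤ _ := Set.encard_le_encard hsub
    _ ≤ _ := Set.encard_image_le _ _

theorem exists_separating {A R : Type*} [CommRing A] [CommRing R] [Algebra ℚ A] [Algebra ℚ R]
    [Algebra A R] [IsScalarTower ℚ A R]
    (S : Set (R →+* ℂ)) (hS : S.Finite)
    (hZ : ∀ φ ∈ S, ∃ r : R, φ r ≠ 0 ∧ IsIntegral A r ∧ ∀ x, ∃ m : ℕ, IsIntegral A (r ^ m * x)) :
    ∃ a : R, IsIntegral A a ∧ Set.InjOn (fun φ : R →+* ℂ => φ a) S := by
  classical
  let A' : Subalgebra A R := integralClosure A R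
  -- the map restricted
  let T : Finset ((R →+* ℂ) × (R →+* ℂ)) :=
    (hS.toFinset ×ˢ hS.toFinset).filter (fun p => p.1 ≠ p.2)
  let W : (R →+* ℂ) × (R →+* ℂ) → Submodule ℚ A' := fun p =>
    LinearMap.eqLocus
      ((p.1.comp (algebraMap A' R)).toRatAlgHom.toLinearMap)
      ((p.2.comp (algebraMap A' R)).toRatAlgHom.toLinearMap)
  have htop : (⊤ : Submodule ℚ A') ∉ T.image W := by
    intro h
    rw [Finset.mem_image] at h
    obtain ⟨⟨φ, ψ⟩, hT, hW⟩ := h
    simp only [T, Finset.mem_filter, Finset.mem_product, Set.Finite.mem_toFinset] at hT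
    obtain ⟨⟨hφ, hψ⟩, hne⟩ := hT
    have hall : ∀ x : A', φ x = ψ x := by
      intro x
      have : x ∈ W (φ, ψ) := by rw [hW]; trivial
      exact this
    apply hne
    obtain ⟨r, hr0, hrint, hr⟩ := hZ φ hφ
    ext x
    obtain ⟨m, hm⟩ := hr x
    have h1 := hall ⟨r, hrint⟩
    have h2 := hall ⟨r ^ m * x, hm⟩
    simp only [map_mul, map_pow] at h1 h2
    rw [h1] at h2
    have h3 : ψ r ^ m ≠ 0 := pow_ne_zero _ (by rw [← h1]; exact hr0)
    exact mul_left_cancel₀ h3 h2
  have hne := Subspace.biUnion_ne_univ_of_top_notMem htop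
  obtain ⟨a, ha⟩ := (Set.ne_univ_iff_exists_notMem _).1 hne
  refine ⟨a, a.2, ?_⟩
  intro φ hφ ψ hψ h
  by_contra hcon
  apply ha
  simp only [Set.mem_iUnion]
  refine ⟨W (φ, ψ), Finset.mem_image_of_mem _ ?_, h⟩
  simp only [T, Finset.mem_filter, Finset.mem_product, Set.Finite.mem_toFinset]
  exact ⟨⟨hφ, hψ⟩, hcon⟩

/-- Main abstract result. -/
theorem encard_le {ι R : Type} [Finite ι] [CommRing R] [IsDomain R] [Algebra ℚ R]
    [Algebra.FiniteType ℚ R] [Algebra (MvPolynomial ι ℚ) R]
    [IsScalarTower ℚ (MvPolynomial ι ℚ) R]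
    (htr : #ι ≤ Algebra.trdeg ℚ R)
    (μ lam : MvPolynomial ι ℚ →+* ℂ)
    (hlam : Function.Injective (algebraMap (MvPolynomial ι ℚ) R) → Function.Injective lam)
    (hfin : {φ : R →+* ℂ | φ.comp (algebraMap _ R) = μ}.Finite) :
    {φ : R →+* ℂ | φ.comp (algebraMap _ R) = μ}.encard ≤
      {φ : R →+* ℂ | φ.comp (algebraMap _ R) = lam}.encard := by
  classical
  set A := MvPolynomial ι ℚ with hA
  set S := {φ : R →+* ℂ | φ.comp (algebraMap A R) = μ} with hS
  by_cases hemp : S = ∅
  · rw [hemp]; simp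
  obtain ⟨φ₀, hφ₀⟩ := Set.nonempty_iff_ne_empty.2 hemp
  haveI : Algebra.FiniteType A R := Algebra.FiniteType.of_restrictScalars_finiteType ℚ A R
  have hZ : ∀ φ ∈ S, ∃ r : R, φ r ≠ 0 ∧ IsIntegral A r ∧ ∀ x, ∃ m : ℕ, IsIntegral A (r ^ m * x) := by
    intro φ hφ
    haveI : (RingHom.ker φ).IsPrime := RingHom.ker_isPrime φ
    haveI := quasiFiniteAt_of_finite_homs μ hfin φ hφ
    have := Algebra.ZariskisMainProperty.of_finiteType (R := A) (RingHom.ker φ)
    obtain ⟨r, hr, h1, h2⟩ := Algebra.zariskisMainProperty_iff.1 this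
    exact ⟨r, fun h => hr ((RingHom.mem_ker).2 h), h1, h2⟩
  obtain ⟨a, haint, hainj⟩ := exists_separating S hfin hZ
  -- algebraicity
  obtain ⟨r, hr0, hrint, hr⟩ := hZ φ₀ hφ₀
  have hrne : r ≠ 0 := fun h => hr0 (by rw [h, map_zero])
  haveI : FaithfulSMul ℚ R := inferInstance
  let xs : ι → R := fun i => algebraMap A R (MvPolynomial.X i)
  have hmem : ∀ p : A, algebraMap A R p ∈ Algebra.adjoin ℚ (Set.range xs) := by
    intro p
    have h1 : algebraMap A R p = MvPolynomial.aeval xs p := by
      have : (IsScalarTower.toAlgHom ℚ A R) = MvPolynomial.aeval xs := by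
        apply MvPolynomial.algHom_ext
        intro i
        rw [MvPolynomial.aeval_X]
        rfl
      exact congrArg (fun f => f p) this
    rw [h1, Algebra.adjoin_range_eq_range_aeval]
    exact ⟨p, rfl⟩
  have hint : ∀ x : R, IsIntegral A x → IsIntegral (Algebra.adjoin ℚ (Set.range xs)) x := by
    intro x hx
    obtain ⟨p, hp, hpx⟩ := hx
    let f : A →+* Algebra.adjoin ℚ (Set.range xs) :=
      (algebraMap A R).codRestrict _ hmem
    refine ⟨p.map f, hp.map f, ?_⟩
    rw [Polynomial.eval₂_map]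
    exact hpx
  haveI halg : Algebra.IsAlgebraic (Algebra.adjoin ℚ (Set.range xs)) R := by
    refine ⟨fun x => ?_⟩
    obtain ⟨m, hm⟩ := hr x
    have h1 : IsAlgebraic (Algebra.adjoin ℚ (Set.range xs)) (r ^ m * x) :=
      (hint _ hm).isAlgebraic
    have h2 : IsAlgebraic (Algebra.adjoin ℚ (Set.range xs)) (r ^ m) :=
      (hint _ (hrint.pow m)).isAlgebraic
    exact IsAlgebraic.of_mul (mem_nonZeroDivisors_of_ne_zero (pow_ne_zero _ hrne)) h2 h1
  have htb : IsTranscendenceBasis ℚ xs :=
    Algebra.IsAlgebraic.isTranscendenceBasis_of_le_trdeg_of_finite ℚ xs htr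
  have hinj : Function.Injective (algebraMap A R) := by
    have h1 : ∀ p : A, algebraMap A R p = MvPolynomial.aeval xs p := by
      intro p
      have : (IsScalarTower.toAlgHom ℚ A R) = MvPolynomial.aeval xs := by
        apply MvPolynomial.algHom_ext
        intro i
        rw [MvPolynomial.aeval_X]
        rfl
      exact congrArg (fun f => f p) this
    have h2 : Function.Injective (MvPolynomial.aeval (R := ℚ) xs) := htb.1
    intro p q hpq
    apply h2
    rw [← h1, ← h1, hpq]
  haveI halgA : Algebra.IsAlgebraic A R := by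
    refine ⟨fun x => ?_⟩
    obtain ⟨m, hm⟩ := hr x
    exact IsAlgebraic.of_mul (mem_nonZeroDivisors_of_ne_zero (pow_ne_zero _ hrne))
      (hrint.pow m).isAlgebraic hm.isAlgebraic
  refine le_trans ?_ (natDegree_minpoly_le hinj lam (hlam hinj) a haint)
  -- the values are roots
  have hroot : (fun φ : R →+* ℂ => φ a) '' S ⊆ (((minpoly A a).map μ).roots.toFinset : Set ℂ) := by
    rintro _ ⟨φ, hφ, rfl⟩
    have hmon : ((minpoly A a).map μ) ≠ 0 := ((minpoly.monic haint).map μ).ne_zero
    simp only [Finset.mem_coe, Multiset.mem_toFinset]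
    rw [Polynomial.mem_roots hmon, Polynomial.IsRoot.def, Polynomial.eval_map]
    have h1 : φ.comp (algebraMap A R) = μ := hφ
    rw [← h1, ← Polynomial.hom_eval₂]
    have h2 : Polynomial.eval₂ (algebraMap A R) a (minpoly A a) = 0 := minpoly.aeval A a
    rw [h2, map_zero]
  calc S.encard = ((fun φ : R →+* ℂ => φ a) '' S).encard := (hainj.encard_image).symm
    _ ≤ (((minpoly A a).map μ).roots.toFinset : Set ℂ).encard := Set.encard_le_encard hroot
    _ = ((((minpoly A a).map μ).roots.toFinset.card : ℕ) : ℕ∞) := Set.encard_coe_eq_coe_finsetCard _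
    _ ≤ _ := by
      rw [← (minpoly.monic haint).natDegree_map μ]
      exact_mod_cast (Multiset.toFinset_card_le _).trans (Polynomial.card_roots' _)

end Pool.Agent.H789R3
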