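import Mathlib
import Pool.Agent.H789R3.Deg

set_option autoImplicit false
set_option linter.style.haveILetI false

open Cardinal

namespace Pool.Agent.H789R3

/-- Symmetric matrices of rank at most two over the complex numbers factor. -/
theorem exists_factor {V : Type*} (g : V → V → ℂ) (hsymm : ∀ u v, g u v = g v u)
    (hdet : ∀ u₁ u₂ u₃ v₁ v₂ v₃ : V,
      g u₁ v₁ * (g u₂ v₂ * g u₃ v₃ - g u₂ v₃ * g u₃ v₂)
      - g u₁ v₂ * (g u₂ v₁ * g u₃ v₃ - g u₂ v₃ * g u₃ v₁)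
      + g u₁ v₃ * (g u₂ v₁ * g u₃ v₂ - g u₂ v₂ * g u₃ v₁) = 0) :
    ∃ p : V → Fin 2 → ℂ, ∀ u v, g u v = ∑ k, p u k * p v k := by
  -- general step
  have step2 : ∀ g' : V → V → ℂ, (∀ u v, g' u v = g' v u) →
      (∀ u₁ u₂ v₁ v₂, g' u₁ v₁ * g' u₂ v₂ = g' u₁ v₂ * g' u₂ v₁) →
      ∃ p : V → ℂ, ∀ u v, g' u v = p u * p v := by
    intro g' hs hd
    by_cases h : ∃ b, g' b b ≠ 0
    · obtain ⟨b, hb⟩ := h
      obtain ⟨c, hc⟩ := IsAlgClosed.exists_pow_nat_eq (g' b b) (n := 2) (by norm_num)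
      have hc0 : c ≠ 0 := by
        rintro rfl
        apply hb
        rw [← hc]; norm_num
      refine ⟨fun v => g' b v / c, fun u v => ?_⟩
      have h1 := hd b u b v
      have : g' u v = g' b v * g' b u / g' b b := by
        rw [eq_div_iff hb]
        rw [hs u b] at h1
        linear_combination h1
      rw [this, ← hc]
      field_simp
    · push Not at h
      refine ⟨fun _ => 0, fun u v => ?_⟩
      have h1 := hd u v u v
      rw [h u, zero_mul, hs v u] at h1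
      have : g' u v * g' u v = 0 := by rw [← h1]
      simpa using this
  have step1 : ∀ (w : V → ℂ) (N : ℂ), N ≠ 0 →
      (∀ u₂ u₃ v₂ v₃ : V,
        N * (g u₂ v₂ * g u₃ v₃ - g u₂ v₃ * g u₃ v₂)
        - w v₂ * (w u₂ * g u₃ v₃ - g u₂ v₃ * w u₃)
        + w v₃ * (w u₂ * g u₃ v₂ - g u₂ v₂ * w u₃) = 0) →
      ∃ p : V → Fin 2 → ℂ, ∀ u v, g u v = ∑ k, p u k * p v k := by
    intro w N hN hw
    obtain ⟨c, hc⟩ := IsAlgClosed.exists_pow_nat_eq N (n := 2) (by norm_num)
    have hc0 : c ≠ 0 := by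
      rintro rfl
      apply hN
      rw [← hc]; norm_num
    obtain ⟨p, hp⟩ := step2 (fun u v => g u v - w u * w v / N)
      (by intro u v; rw [hsymm u v]; ring)
      (by
        intro u₁ u₂ v₁ v₂
        have := hw u₁ u₂ v₁ v₂
        field_simp
        linear_combination N * this)
    refine ⟨fun v k => if k = 0 then w v / c else p v, fun u v => ?_⟩
    rw [Fin.sum_univ_two]
    simp only [if_true, if_false, Fin.isValue, one_ne_zero]
    have h2 := hp u v
    rw [← h2, ← hc]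
    field_simp
    ring
  by_cases h : ∃ a, g a a ≠ 0
  · obtain ⟨a, ha⟩ := h
    refine step1 (fun v => g a v) (g a a) ha ?_
    intro u₂ u₃ v₂ v₃
    have := hdet a u₂ u₃ a v₂ v₃
    rw [hsymm u₂ a, hsymm u₃ a] at this
    linear_combination this
  · push Not at h
    by_cases h' : ∃ a b, g a b ≠ 0
    · obtain ⟨a, b, hab⟩ := h'
      refine step1 (fun v => g a v + g b v) (2 * g a b) (by simpa using hab) ?_
      intro u₂ u₃ v₂ v₃
      have e1 := hdet a u₂ u₃ a v₂ v₃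
      have e2 := hdet b u₂ u₃ b v₂ v₃
      have e3 := hdet a u₂ u₃ b v₂ v₃
      have e4 := hdet b u₂ u₃ a v₂ v₃
      rw [hsymm u₂ a, hsymm u₃ a] at e1 e4
      rw [hsymm u₂ b, hsymm u₃ b] at e2 e3
      rw [h a] at e1
      rw [h b] at e2
      rw [hsymm b a] at e4
      linear_combination e1 + e2 + e3 + e4
    · push Not at h'
      exact ⟨fun _ _ => 0, fun u v => by simp [h']⟩

variable {V : Type}

/-- squared distance polynomial -/
noncomputable def dpoly (u v : V) : MvPolynomial (V × Fin 2) ℚ :=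
  ∑ k : Fin 2, (MvPolynomial.X (u, k) - MvPolynomial.X (v, k)) ^ 2

/-- The ring of invariants. -/
noncomputable def RR (V : Type) : Subalgebra ℚ (MvPolynomial (V × Fin 2) ℚ) :=
  Algebra.adjoin ℚ (Set.range (fun p : V × V => dpoly p.1 p.2))

theorem dpoly_mem (u v : V) : dpoly u v ∈ RR V :=
  Algebra.subset_adjoin ⟨(u, v), rfl⟩

noncomputable def dR (u v : V) : RR V := ⟨dpoly u v, dpoly_mem u v⟩

theorem dpoly_comm (u v : V) : dpoly u v = dpoly v u := by
  unfold dpoly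
  exact Finset.sum_congr rfl (fun k _ => by ring)

theorem dR_comm (u v : V) : dR u v = dR v u := Subtype.ext (dpoly_comm u v)

noncomputable def dS : Sym2 V → RR V := Sym2.lift ⟨dR, dR_comm⟩

/-- evaluation at a realisation -/
noncomputable def ev (r : V → Fin 2 → ℂ) : RR V →+* ℂ :=
  (MvPolynomial.aeval (R := ℚ) (fun x : V × Fin 2 => r x.1 x.2)).toRingHom.comp
    (RR V).val.toRingHom

theorem ev_dR (r : V → Fin 2 → ℂ) (u v : V) :
    ev r (dR u v) = ∑ k : Fin 2, (r u k - r v k) ^ 2 := by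
  simp [ev, dR, dpoly]

theorem hom_ext {φ ψ : RR V →+* ℂ} (h : ∀ u v, φ (dR u v) = ψ (dR u v)) : φ = ψ := by
  ext ⟨x, hx⟩
  induction hx using Algebra.adjoin_induction with
  | mem x hx =>
    obtain ⟨⟨u, v⟩, rfl⟩ := hx
    exact h u v
  | algebraMap r =>
    have h1 : (⟨algebraMap ℚ _ r, (RR V).algebraMap_mem r⟩ : RR V) = algebraMap ℚ (RR V) r := rfl
    rw [h1]
    have h2 : φ.comp (algebraMap ℚ (RR V)) = ψ.comp (algebraMap ℚ (RR V)) :=
      Subsingleton.elim _ _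
    exact RingHom.congr_fun h2 r
  | add x y hx hy h1 h2 =>
    have e : (⟨x + y, add_mem hx hy⟩ : RR V) = ⟨x, hx⟩ + ⟨y, hy⟩ := rfl
    rw [e, map_add, map_add, h1, h2]
  | mul x y hx hy h1 h2 =>
    have e : (⟨x * y, mul_mem hx hy⟩ : RR V) = ⟨x, hx⟩ * ⟨y, hy⟩ := rfl
    rw [e, map_mul, map_mul, h1, h2]

theorem exists_real (φ : RR V →+* ℂ) : ∃ r : V → Fin 2 → ℂ, φ = ev r := by
  by_cases hV : Nonempty V
  swap
  · refine ⟨fun _ _ => 0, hom_ext (fun u => (hV ⟨u⟩).elim)⟩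
  obtain ⟨o⟩ := hV
  let gR : V → V → RR V := fun u v => dR o u + dR o v - dR u v
  have hgR : ∀ u v, (gR u v : MvPolynomial (V × Fin 2) ℚ) =
      2 * ∑ k : Fin 2, (MvPolynomial.X (u, k) - MvPolynomial.X (o, k)) *
        (MvPolynomial.X (v, k) - MvPolynomial.X (o, k)) := by
    intro u v
    simp only [gR, dR, dpoly, AddSubgroupClass.coe_sub, AddMemClass.mk_add_mk, Fin.sum_univ_two]
    ring
  have hdetR : ∀ u₁ u₂ u₃ v₁ v₂ v₃ : V,
      gR u₁ v₁ * (gR u₂ v₂ * gR u₃ v₃ - gR u₂ v₃ * gR u₃ v₂)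
      - gR u₁ v₂ * (gR u₂ v₁ * gR u₃ v₃ - gR u₂ v₃ * gR u₃ v₁)
      + gR u₁ v₃ * (gR u₂ v₁ * gR u₃ v₂ - gR u₂ v₂ * gR u₃ v₁) = 0 := by
    intro u₁ u₂ u₃ v₁ v₂ v₃
    apply Subtype.ext
    push_cast
    simp only [hgR, Fin.sum_univ_two]
    ring
  obtain ⟨p, hp⟩ := exists_factor (fun u v => φ (gR u v) / 2)
    (by
      intro u v
      have : gR u v = gR v u := by
        simp only [gR]
        rw [dR_comm u v]; ring
      rw [this])
    (by
      intro u₁ u₂ u₃ v₁ v₂ v₃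
      have := congrArg φ (hdetR u₁ u₂ u₃ v₁ v₂ v₃)
      simp only [map_add, map_sub, map_mul, map_zero] at this
      linear_combination (1 / 8 : ℂ) * this)
  refine ⟨p, hom_ext (fun u v => ?_)⟩
  rw [ev_dR]
  have h1 := hp u u
  have h2 := hp v v
  have h3 := hp u v
  have hz : ∀ w : V, dR w w = 0 := by
    intro w
    apply Subtype.ext
    simp [dR, dpoly]
  simp only [gR, map_add, map_sub, hz, map_zero, Fin.sum_univ_two] at h1 h2 h3
  rw [Fin.sum_univ_two]
  linear_combination h1 + h2 - 2 * h3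

end Pool.Agent.H789R3
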