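import Mathlib

set_option autoImplicit false
set_option linter.style.haveILetI false
set_option linter.unusedSectionVars false

namespace Pool.Agent.H789R3

open Finset

/-- no function of polynomial growth can satisfy a geometric growth inequality -/
theorem no_geom (N : ℕ → ℕ) (m : ℕ) (h0 : 1 ≤ N 0) (hN : ∀ j, N j ≤ (j + 1) ^ m)
    (c G : ℕ) (h : ∀ j, (G + 1) * N j ≤ G * N (j + c)) : False := by
  have h1 : ∀ t : ℕ, (G + 1) ^ t ≤ G ^ t * N (c * t) := by
    intro t
    induction t with
    | zero => simpa using h0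
    | succ t ih =>
      calc (G + 1) ^ (t + 1) = (G + 1) ^ t * (G + 1) := pow_succ _ _
        _ ≤ (G ^ t * N (c * t)) * (G + 1) := Nat.mul_le_mul_right _ ih
        _ = G ^ t * ((G + 1) * N (c * t)) := by ring
        _ ≤ G ^ t * (G * N (c * t + c)) := Nat.mul_le_mul_left _ (h _)
        _ = G ^ (t + 1) * N (c * (t + 1)) := by ring_nf
  have hG : 0 < G := by
    rcases Nat.eq_zero_or_pos G with h2 | h2
    · subst h2
      have := h 0
      simp at this
      omega
    · exact h2
  have hr : (1 : ℝ) < ((G : ℝ) + 1) / G := by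
    rw [lt_div_iff₀ (by exact_mod_cast hG)]
    linarith
  have h2 := tendsto_pow_const_div_const_pow_of_one_lt m hr
  have hpos : (0 : ℝ) < 1 / ((c : ℝ) + 1) ^ m := by positivity
  obtain ⟨t, ht1, ht2⟩ := ((h2.eventually (gt_mem_nhds hpos)).and
    (Filter.eventually_ge_atTop 1)).exists
  have h3 : ((G : ℝ) + 1) ^ t ≤ (G : ℝ) ^ t * (((c : ℝ) + 1) * t) ^ m := by
    have h4 := h1 t
    have h5 := hN (c * t)
    have h6 : (c * t + 1) ^ m ≤ ((c + 1) * t) ^ m := by
      apply Nat.pow_le_pow_left
      nlinarith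
    have h7 : (G + 1) ^ t ≤ G ^ t * ((c + 1) * t) ^ m :=
      h4.trans (Nat.mul_le_mul_left _ (h5.trans h6))
    exact_mod_cast h7
  have hG' : (0 : ℝ) < (G : ℝ) := by exact_mod_cast hG
  rw [div_pow, div_lt_div_iff₀ (by positivity) (by positivity), one_mul] at ht1
  have h8 : (t : ℝ) ^ m * ((c : ℝ) + 1) ^ m * (G : ℝ) ^ t < ((G : ℝ) + 1) ^ t := by
    rw [lt_div_iff₀ (by positivity)] at ht1
    exact ht1
  rw [mul_pow] at h3
  nlinarith

section growth
variable {k : Type} [Field k] {J : Type} [Fintype J] [DecidableEq J] (w : J → ℕ)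

/-- polynomials all of whose monomials have weight at least `d` -/
noncomputable def FF (k : Type) [Field k] (d : ℕ) : Submodule k (MvPolynomial J k) :=
  MvPolynomial.restrictSupport k {m | d ≤ Finsupp.weight w m}

noncomputable def GG (k : Type) [Field k] (d : ℕ) : Submodule k (MvPolynomial J k) :=
  MvPolynomial.restrictSupport k {m | Finsupp.weight w m < d}

theorem mem_FF (d : ℕ) (p : MvPolynomial J k) :
    p ∈ FF w k d ↔ ∀ m ∈ p.support, d ≤ Finsupp.weight w m := by
  unfold FF
  rw [MvPolynomial.mem_restrictSupport_iff]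
  rfl

theorem mem_GG (d : ℕ) (p : MvPolynomial J k) :
    p ∈ GG w k d ↔ ∀ m ∈ p.support, Finsupp.weight w m < d := by
  unfold GG
  rw [MvPolynomial.mem_restrictSupport_iff]
  rfl

theorem FF_mono {a b : ℕ} (h : a ≤ b) {p : MvPolynomial J k} (hp : p ∈ FF w k b) :
    p ∈ FF w k a := by
  rw [mem_FF] at hp ⊢
  exact fun m hm => h.trans (hp m hm)

theorem FF_mul {a b : ℕ} {p q : MvPolynomial J k} (hp : p ∈ FF w k a) (hq : q ∈ FF w k b) :
    p * q ∈ FF w k (a + b) := by
  rw [mem_FF] at hp hq ⊢
  intro m hm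
  have h1 := MvPolynomial.support_mul p q hm
  rw [Finset.mem_add] at h1
  obtain ⟨u, hu, v, hv, rfl⟩ := h1
  rw [map_add]
  exact add_le_add (hp u hu) (hq v hv)

theorem GG_mul {a b : ℕ} {p q : MvPolynomial J k} (hp : p ∈ GG w k a)
    (hq : ∀ m ∈ q.support, Finsupp.weight w m = b) :
    p * q ∈ GG w k (a + b) := by
  rw [mem_GG] at hp ⊢
  intro m hm
  have h1 := MvPolynomial.support_mul p q hm
  rw [Finset.mem_add] at h1
  obtain ⟨u, hu, v, hv, rfl⟩ := h1
  rw [map_add, hq v hv]
  exact Nat.add_lt_add_right (hp u hu) b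

theorem FF_GG {d : ℕ} {p : MvPolynomial J k} (hp : p ∈ FF w k d) (hq : p ∈ GG w k d) :
    p = 0 := by
  rw [mem_FF] at hp
  rw [mem_GG] at hq
  by_contra h
  obtain ⟨m, hm⟩ := (MvPolynomial.support_nonempty.2 h)
  exact absurd (hp m hm) (not_le.2 (hq m hm))

theorem monomial_mem_FF (m : J →₀ ℕ) (a : k) {d : ℕ} (h : d ≤ Finsupp.weight w m) :
    MvPolynomial.monomial m a ∈ FF w k d := by
  rw [mem_FF]
  intro m' hm'
  have := MvPolynomial.support_monomial_subset hm'
  rw [Finset.mem_singleton] at this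
  rw [this]
  exact h

theorem monomial_mem_GG (m : J →₀ ℕ) (a : k) {d : ℕ} (h : Finsupp.weight w m < d) :
    MvPolynomial.monomial m a ∈ GG w k d := by
  rw [mem_GG]
  intro m' hm'
  have := MvPolynomial.support_monomial_subset hm'
  rw [Finset.mem_singleton] at this
  rw [this]
  exact h

theorem trunc (d : ℕ) (p : MvPolynomial J k) :
    ∃ a ∈ FF w k d, ∃ b ∈ GG w k d, p = a + b := by
  classical
  refine ⟨∑ m ∈ p.support with d ≤ Finsupp.weight w m, MvPolynomial.monomial m (p.coeff m), ?_,
    ∑ m ∈ p.support with ¬ d ≤ Finsupp.weight w m, MvPolynomial.monomial m (p.coeff m), ?_, ?_⟩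
  · refine sum_mem (fun m hm => monomial_mem_FF w m _ (Finset.mem_filter.1 hm).2)
  · refine sum_mem (fun m hm => monomial_mem_GG w m _ (not_le.1 (Finset.mem_filter.1 hm).2))
  · rw [Finset.sum_filter_add_sum_filter_not, MvPolynomial.support_sum_monomial_coeff]

theorem mono_mem (hw : ∀ j, w j = 1 ∨ w j = 2) (q : J → MvPolynomial J k)
    (hq : ∀ e, ∀ m ∈ (q e).support, Finsupp.weight w m = 2)
    (hX : ∀ j, ∃ N, (MvPolynomial.X j : MvPolynomial J k) ^ N ∈ Ideal.span (Set.range q)) :
    ∃ W, ∀ m : J →₀ ℕ, W ≤ Finsupp.weight w m → ∃ A : J → MvPolynomial J k,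
      (∀ e, A e ∈ FF w k (Finsupp.weight w m - 2)) ∧
      MvPolynomial.monomial m 1 = ∑ e, A e * q e := by
  classical
  choose N0 hN0 using hX
  obtain ⟨N, hN2, hN⟩ : ∃ N, 2 ≤ N ∧ ∀ j, N0 j ≤ N :=
    ⟨2 + ∑ j, N0 j, by omega, fun j =>
      (Finset.single_le_sum (f := N0) (fun _ _ => Nat.zero_le _) (mem_univ j)).trans (by omega)⟩
  have hB : ∀ j, ∃ B : J → MvPolynomial J k, (∀ e, B e ∈ FF w k (w j * N - 2)) ∧
      (MvPolynomial.X j : MvPolynomial J k) ^ N = ∑ e, B e * q e := by
    intro j
    have h1 : (MvPolynomial.X j : MvPolynomial J k) ^ N ∈ Ideal.span (Set.range q) := by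
      rw [← Nat.sub_add_cancel (hN j), pow_add]
      exact Ideal.mul_mem_left _ _ (hN0 j)
    rw [Ideal.mem_span_range_iff_exists_fun] at h1
    obtain ⟨C, hC⟩ := h1
    choose a ha b hb hab using fun e => trunc w (w j * N - 2) (C e)
    refine ⟨a, ha, ?_⟩
    have hwN : w j * N - 2 + 2 = w j * N := by
      have : 1 ≤ w j := by rcases hw j with h | h <;> omega
      have : 2 ≤ w j * N := by nlinarith
      omega
    have h2 : (MvPolynomial.X j : MvPolynomial J k) ^ N - ∑ e, a e * q e = ∑ e, b e * q e := by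
      rw [← hC, ← Finset.sum_sub_distrib]
      refine sum_congr rfl (fun e _ => ?_)
      rw [hab e]
      ring
    have h3 : (MvPolynomial.X j : MvPolynomial J k) ^ N - ∑ e, a e * q e ∈ FF w k (w j * N) := by
      refine Submodule.sub_mem _ ?_ (sum_mem (fun e _ => ?_))
      · rw [MvPolynomial.X_pow_eq_monomial]
        apply monomial_mem_FF
        rw [Finsupp.weight_single]
        simp [mul_comm]
      · rw [← hwN]
        refine FF_mul w (ha e) ?_
        rw [mem_FF]
        exact fun m hm => (hq e m hm).ge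
    have h4 : (MvPolynomial.X j : MvPolynomial J k) ^ N - ∑ e, a e * q e ∈ GG w k (w j * N) := by
      rw [h2]
      refine sum_mem (fun e _ => ?_)
      rw [← hwN]
      exact GG_mul w (hb e) (hq e)
    exact sub_eq_zero.1 (FF_GG w h3 h4)
  choose B hB1 hB2 using hB
  refine ⟨2 * N * Fintype.card J + 2, fun m hm => ?_⟩
  obtain ⟨j, hj⟩ : ∃ j, N ≤ m j := by
    by_contra hcon
    push Not at hcon
    have h1 : Finsupp.weight w m ≤ 2 * N * Fintype.card J := by
      rw [Finsupp.weight_eq_sum]
      calc ∑ j, m j • w j ≤ ∑ _j : J, 2 * N := by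
            refine Finset.sum_le_sum (fun j _ => ?_)
            have h2 := (hcon j).le
            rcases hw j with h | h <;> rw [h, smul_eq_mul] <;> omega
        _ = 2 * N * Fintype.card J := by
            rw [Finset.sum_const, smul_eq_mul, Finset.card_univ, mul_comm]
    omega
  have hm' : m = (m - Finsupp.single j N) + Finsupp.single j N := by
    rw [tsub_add_cancel_of_le]
    rw [Finsupp.single_le_iff]
    exact hj
  have hwt : Finsupp.weight w m = Finsupp.weight w (m - Finsupp.single j N) + w j * N := by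
    conv_lhs => rw [hm']
    rw [map_add, Finsupp.weight_single, smul_eq_mul, mul_comm N]
  refine ⟨fun e => MvPolynomial.monomial (m - Finsupp.single j N) 1 * B j e, ?_, ?_⟩
  · intro e
    have hwN : w j * N - 2 + 2 = w j * N := by
      have : 1 ≤ w j := by rcases hw j with h | h <;> omega
      have : 2 ≤ w j * N := by nlinarith
      omega
    have : Finsupp.weight w m - 2 = Finsupp.weight w (m - Finsupp.single j N) + (w j * N - 2) := by
      omega
    rw [this]
    exact FF_mul w (monomial_mem_FF w _ _ le_rfl) (hB1 j e)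
  · have h5 : (MvPolynomial.monomial m 1 : MvPolynomial J k) =
        MvPolynomial.monomial (m - Finsupp.single j N) 1 * MvPolynomial.X j ^ N := by
      rw [MvPolynomial.X_pow_eq_monomial, MvPolynomial.monomial_mul, ← hm', one_mul]
    rw [h5, hB2 j, mul_sum]
    refine sum_congr rfl (fun e _ => ?_)
    ring

end growth

end Pool.Agent.H789R3
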