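import Mathlib
import Pool.Agent.H789R3.Growth

set_option autoImplicit false
set_option linter.style.haveILetI false
set_option linter.unusedSectionVars false

namespace Pool.Agent.H789R3

open Finset

section growth
variable {k : Type} [Field k] {J : Type} [Fintype J] [DecidableEq J] (w : J → ℕ)

theorem FF_zero (p : MvPolynomial J k) : p ∈ FF w k 0 := by
  rw [mem_FF]
  exact fun m _ => Nat.zero_le _

theorem span_claim (q h : J → MvPolynomial J k)
    (hq : ∀ e, ∀ m ∈ (q e).support, Finsupp.weight w m = 2)
    (hh : ∀ e, h e - q e ∈ FF w k 3) (W : ℕ)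
    (hW : ∀ m : J →₀ ℕ, W ≤ Finsupp.weight w m → ∃ A : J → MvPolynomial J k,
      (∀ e, A e ∈ FF w k (Finsupp.weight w m - 2)) ∧
      MvPolynomial.monomial m 1 = ∑ e, A e * q e) (hW2 : 2 ≤ W)
    (M : Finset (J →₀ ℕ)) (hM : ∀ m, Finsupp.weight w m < W → m ∈ M) :
    ∀ d : ℕ, ∀ P : MvPolynomial J k, ∃ r : (J →₀ ℕ) → MvPolynomial J k,
      (∀ m, (r m).totalDegree ≤ d / 2) ∧
      P - ∑ m ∈ M, MvPolynomial.aeval h (r m) * MvPolynomial.monomial m 1 ∈ FF w k d := by
  classical
  intro d
  have hhF : ∀ e, h e ∈ FF w k 2 := by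
    intro e
    have h1 : h e = (h e - q e) + q e := by ring
    rw [h1]
    refine Submodule.add_mem _ (FF_mono w (by norm_num) (hh e)) ?_
    rw [mem_FF]
    exact fun m hm => (hq e m hm).ge
  -- sums
  have key : ∀ (d : ℕ) (ι : Type) (s : Finset ι) (P : ι → MvPolynomial J k),
      (∀ i ∈ s, ∃ r : (J →₀ ℕ) → MvPolynomial J k,
        (∀ m, (r m).totalDegree ≤ d / 2) ∧
        P i - ∑ m ∈ M, MvPolynomial.aeval h (r m) * MvPolynomial.monomial m 1 ∈ FF w k d) →
      ∃ r : (J →₀ ℕ) → MvPolynomial J k,
        (∀ m, (r m).totalDegree ≤ d / 2) ∧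
        ∑ i ∈ s, P i - ∑ m ∈ M, MvPolynomial.aeval h (r m) * MvPolynomial.monomial m 1
          ∈ FF w k d := by
    intro d ι s P hs
    induction s using Finset.induction_on with
    | empty =>
      refine ⟨fun _ => 0, fun m => ?_, ?_⟩
      · rw [MvPolynomial.totalDegree_zero]; exact Nat.zero_le _
      · simp
    | insert a s ha ih =>
      obtain ⟨r1, hr1, hr1'⟩ := hs a (mem_insert_self _ _)
      obtain ⟨r2, hr2, hr2'⟩ := ih (fun i hi => hs i (mem_insert_of_mem hi))
      refine ⟨fun m => r1 m + r2 m, fun m => ?_, ?_⟩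
      · exact (MvPolynomial.totalDegree_add _ _).trans (max_le (hr1 m) (hr2 m))
      · rw [sum_insert ha]
        have h1 : ∑ m ∈ M, MvPolynomial.aeval h (r1 m + r2 m) * MvPolynomial.monomial m 1 =
          ∑ m ∈ M, MvPolynomial.aeval h (r1 m) * MvPolynomial.monomial m 1 +
          ∑ m ∈ M, MvPolynomial.aeval h (r2 m) * MvPolynomial.monomial m 1 := by
          rw [← sum_add_distrib]
          exact sum_congr rfl (fun m _ => by rw [map_add, add_mul])
        rw [h1, add_sub_add_comm]
        exact Submodule.add_mem _ hr1' hr2'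
  have hmonoW : ∀ d, ∀ m : J →₀ ℕ, Finsupp.weight w m < W →
      ∃ r : (J →₀ ℕ) → MvPolynomial J k,
        (∀ m, (r m).totalDegree ≤ d / 2) ∧
        MvPolynomial.monomial m 1 - ∑ m ∈ M, MvPolynomial.aeval h (r m) *
          MvPolynomial.monomial m 1 ∈ FF w k d := by
    intro d m hm
    refine ⟨fun m' => if m' = m then 1 else 0, fun m' => ?_, ?_⟩
    · dsimp only
      split_ifs
      · rw [MvPolynomial.totalDegree_one]; exact Nat.zero_le _
      · rw [MvPolynomial.totalDegree_zero]; exact Nat.zero_le _
    · have h1 : ∑ m' ∈ M, MvPolynomial.aeval h (if m' = m then (1 : MvPolynomial J k) else 0) *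
          (MvPolynomial.monomial m' 1 : MvPolynomial J k) = MvPolynomial.monomial m 1 := by
        rw [Finset.sum_eq_single m]
        · simp
        · intro b _ hb
          simp [hb]
        · intro hcon
          exact absurd (hM m hm) hcon
      rw [h1, sub_self]
      exact Submodule.zero_mem _
  induction d using Nat.strong_induction_on with
  | _ d ih =>
    rcases d with _ | d
    · intro P
      refine ⟨fun _ => 0, fun m => ?_, FF_zero w _⟩
      rw [MvPolynomial.totalDegree_zero]
    · intro P
      obtain ⟨r0, hr0, hr0'⟩ := ih d (Nat.lt_succ_self d) P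
      set P' := P - ∑ m ∈ M, MvPolynomial.aeval h (r0 m) * MvPolynomial.monomial m 1 with hP'
      -- it suffices to treat P'
      suffices hsuff : ∃ r : (J →₀ ℕ) → MvPolynomial J k,
        (∀ m, (r m).totalDegree ≤ (d + 1) / 2) ∧
        P' - ∑ m ∈ M, MvPolynomial.aeval h (r m) * MvPolynomial.monomial m 1 ∈
          FF w k (d + 1) by
        obtain ⟨r1, hr1, hr1'⟩ := hsuff
        refine ⟨fun m => r0 m + r1 m, fun m => ?_, ?_⟩
        · refine (MvPolynomial.totalDegree_add _ _).trans (max_le ((hr0 m).trans ?_) (hr1 m))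
          exact Nat.div_le_div_right (Nat.le_succ d)
        · have h1 : ∑ m ∈ M, MvPolynomial.aeval h (r0 m + r1 m) * MvPolynomial.monomial m 1 =
            ∑ m ∈ M, MvPolynomial.aeval h (r0 m) * MvPolynomial.monomial m 1 +
            ∑ m ∈ M, MvPolynomial.aeval h (r1 m) * MvPolynomial.monomial m 1 := by
            rw [← sum_add_distrib]
            exact sum_congr rfl (fun m _ => by rw [map_add, add_mul])
          rw [h1, ← sub_sub]
          exact hr1'
      -- decompose P' into monomials
      have h2 : P' = ∑ m ∈ P'.support, MvPolynomial.C (P'.coeff m) *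
          MvPolynomial.monomial m 1 := by
        conv_lhs => rw [← MvPolynomial.support_sum_monomial_coeff P']
        refine sum_congr rfl (fun m _ => ?_)
        rw [MvPolynomial.C_mul_monomial, mul_one]
      rw [h2]
      apply key (d + 1)
      intro m hm
      have hmd : d ≤ Finsupp.weight w m := by
        rw [mem_FF] at hr0'
        exact hr0' m hm
      -- scalar multiples
      suffices hsuff : ∃ r : (J →₀ ℕ) → MvPolynomial J k,
        (∀ m, (r m).totalDegree ≤ (d + 1) / 2) ∧
        MvPolynomial.monomial m 1 - ∑ m ∈ M, MvPolynomial.aeval h (r m) *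
          MvPolynomial.monomial m 1 ∈ FF w k (d + 1) by
        obtain ⟨r1, hr1, hr1'⟩ := hsuff
        refine ⟨fun m' => MvPolynomial.C (P'.coeff m) * r1 m', fun m' => ?_, ?_⟩
        · refine (MvPolynomial.totalDegree_mul _ _).trans ?_
          rw [MvPolynomial.totalDegree_C, zero_add]
          exact hr1 m'
        · have h1 : ∑ m' ∈ M, MvPolynomial.aeval h (MvPolynomial.C (P'.coeff m) * r1 m') *
              MvPolynomial.monomial m' 1 = MvPolynomial.C (P'.coeff m) *
            ∑ m' ∈ M, MvPolynomial.aeval h (r1 m') * MvPolynomial.monomial m' 1 := by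
            rw [mul_sum]
            refine sum_congr rfl (fun m' _ => ?_)
            rw [map_mul, MvPolynomial.aeval_C, MvPolynomial.algebraMap_eq, mul_assoc]
          rw [h1, ← mul_sub, MvPolynomial.C_mul']
          exact Submodule.smul_mem _ _ hr1'
      rcases lt_or_ge (Finsupp.weight w m) W with hlt | hge
      · exact hmonoW _ m hlt
      rcases Nat.lt_or_ge d (Finsupp.weight w m) with hlt | hge2
      · refine ⟨fun _ => 0, fun m => ?_, ?_⟩
        · rw [MvPolynomial.totalDegree_zero]; exact Nat.zero_le _
        · simp only [map_zero, zero_mul, sum_const_zero, sub_zero]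
          exact monomial_mem_FF w m 1 hlt
      have hd : Finsupp.weight w m = d := le_antisymm hge2 hmd
      obtain ⟨A, hA1, hA2⟩ := hW m hge
      have hd2 : 2 ≤ d := by omega
      have h3 : (MvPolynomial.monomial m 1 : MvPolynomial J k) =
          ∑ e, A e * h e - ∑ e, A e * (h e - q e) := by
        rw [hA2, ← sum_sub_distrib]
        refine sum_congr rfl (fun e _ => ?_)
        ring
      have h4 : ∑ e, A e * (h e - q e) ∈ FF w k (d + 1) := by
        refine sum_mem (fun e _ => ?_)
        have := FF_mul w (hA1 e) (hh e)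
        rw [hd] at this
        have h5 : d - 2 + 3 = d + 1 := by omega
        rw [h5] at this
        exact this
      obtain ⟨r1, hr1, hr1'⟩ := key (d + 1) J univ (fun e => A e * h e) (by
        intro e _
        obtain ⟨r2, hr2, hr2'⟩ := ih (d - 1) (by omega) (A e)
        refine ⟨fun m' => r2 m' * MvPolynomial.X e, fun m' => ?_, ?_⟩
        · refine (MvPolynomial.totalDegree_mul _ _).trans ?_
          rw [MvPolynomial.totalDegree_X]
          have := hr2 m'
          omega
        · have h1 : ∑ m' ∈ M, MvPolynomial.aeval h (r2 m' * MvPolynomial.X e) *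
              MvPolynomial.monomial m' 1 =
            (∑ m' ∈ M, MvPolynomial.aeval h (r2 m') * MvPolynomial.monomial m' 1) * h e := by
            rw [sum_mul]
            refine sum_congr rfl (fun m' _ => ?_)
            rw [map_mul, MvPolynomial.aeval_X]
            ring
          rw [h1, ← sub_mul]
          have h6 := FF_mul w hr2' (hhF e)
          have h7 : d - 1 + 2 = d + 1 := by omega
          rw [h7] at h6
          exact h6)
      refine ⟨r1, hr1, ?_⟩
      rw [h3, sub_right_comm]
      exact Submodule.sub_mem _ hr1' h4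

end growth

end Pool.Agent.H789R3
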