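import Mathlib
import Pool.Agent.H789R3.Growth2

set_option autoImplicit false
set_option linter.style.haveILetI false
set_option linter.unusedSectionVars false

namespace Pool.Agent.H789R3

open Finset

section growth
variable {k : Type} [Field k] {J : Type} [Fintype J] [DecidableEq J] (w : J → ℕ)

noncomputable def NN (k : Type) [Field k] (J : Type) (i : ℕ) : ℕ :=
  Module.finrank k (MvPolynomial.restrictTotalDegree J k i)

theorem NN_eq (i : ℕ) : NN k J i = Nat.card {n : J →₀ ℕ | (n.sum fun _ e => e) ≤ i} :=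
  Module.finrank_eq_nat_card_basis (MvPolynomial.basisRestrictSupport k _)

theorem finite_deg (i : ℕ) : Finite {n : J →₀ ℕ | (n.sum fun _ e => e) ≤ i} := by
  have h1 := Finsupp.finite_of_degree_le (σ := J) i
  refine Set.Finite.subset h1 ?_
  intro n hn
  change n.degree ≤ i
  rw [Finsupp.degree_apply]
  exact hn

theorem sum_eq (n : J →₀ ℕ) : (n.sum fun _ e => e) = ∑ j, n j := by
  rw [Finsupp.sum_fintype]
  intro i; rfl

theorem NN_zero : 1 ≤ NN k J 0 := by
  rw [NN_eq]
  have := finite_deg (J := J) 0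
  have : Nonempty {n : J →₀ ℕ | (n.sum fun _ e => e) ≤ 0} := ⟨⟨0, by simp⟩⟩
  exact Nat.card_pos

theorem NN_le (i : ℕ) : NN k J i ≤ (i + 1) ^ Fintype.card J := by
  rw [NN_eq]
  have h1 : Nat.card (J → Fin (i + 1)) = (i + 1) ^ Fintype.card J := by
    rw [Nat.card_eq_fintype_card, Fintype.card_fun, Fintype.card_fin]
  rw [← h1]
  refine Nat.card_le_card_of_injective
    (fun (n : {n : J →₀ ℕ | (n.sum fun _ e => e) ≤ i}) (j : J) => (⟨n.1 j, ?_⟩ : Fin (i + 1))) ?_
  · have h2 : (n.1.sum fun _ e => e) ≤ i := n.2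
    rw [sum_eq] at h2
    have h3 := Finset.single_le_sum (f := fun j => n.1 j) (fun _ _ => Nat.zero_le _) (mem_univ j)
    exact Nat.lt_succ_of_le (h3.trans h2)
  · intro a b hab
    apply Subtype.ext
    ext j
    have := congrFun hab j
    exact Fin.mk.inj_iff.1 this

theorem finite_wt (hw : ∀ j, w j = 1 ∨ w j = 2) (d : ℕ) :
    Set.Finite {m : J →₀ ℕ | Finsupp.weight w m < d} := by
  have hw' : ∀ x, w x ≠ 0 := fun x => by rcases hw x with h | h <;> omega
  have h1 := Finsupp.finite_of_nat_weight_le w hw' d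
  refine Set.Finite.subset h1 ?_
  intro n hn
  have hn' : Finsupp.weight w n < d := hn
  exact hn'.le

theorem count_le (hw : ∀ j, w j = 1 ∨ w j = 2) (j : ℕ) :
    2 ^ (Fintype.card {i : J // w i = 1}) * NN k J j ≤
      Nat.card {m : J →₀ ℕ | Finsupp.weight w m < 2 * j + Fintype.card {i : J // w i = 1} + 1} := by
  classical
  have h1 : 2 ^ (Fintype.card {i : J // w i = 1}) = Nat.card ({i : J // w i = 1} → Fin 2) := by
    rw [Nat.card_eq_fintype_card, Fintype.card_fun, Fintype.card_fin]
  rw [NN_eq, h1, ← Nat.card_prod]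
  have hfin := finite_wt w hw (2 * j + Fintype.card {i : J // w i = 1} + 1)
  have := hfin.to_subtype
  refine Nat.card_le_card_of_injective (fun (x : ({i : J // w i = 1} → Fin 2) ×
      {n : J →₀ ℕ | (n.sum fun _ e => e) ≤ j}) => (⟨Finsupp.equivFunOnFinite.symm
        (fun i => if h : w i = 1 then 2 * x.2.1 i + (x.1 ⟨i, h⟩).1 else x.2.1 i), ?_⟩ :
        {m : J →₀ ℕ | Finsupp.weight w m < 2 * j + Fintype.card {i : J // w i = 1} + 1})) ?_
  · change Finsupp.weight w _ < _
    rw [Finsupp.weight_eq_sum]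
    have h2 : ∑ i, x.2.1 i ≤ j := by
      rw [← sum_eq]; exact x.2.2
    have h3 : Fintype.card {i : J // w i = 1} = ∑ i : J, if w i = 1 then 1 else 0 := by
      rw [Fintype.card_subtype, Finset.card_filter]
    have h4 : ∑ i : J, (Finsupp.equivFunOnFinite.symm
        (fun i => if h : w i = 1 then 2 * x.2.1 i + (x.1 ⟨i, h⟩).1 else x.2.1 i)) i • w i ≤
        ∑ i : J, (2 * x.2.1 i + if w i = 1 then 1 else 0) := by
      refine Finset.sum_le_sum (fun i _ => ?_)
      rw [Finsupp.equivFunOnFinite_symm_apply_apply]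
      by_cases h : w i = 1
      · have h5 := (x.1 ⟨i, h⟩).2
        rw [dif_pos h, if_pos h, h]
        simp only [smul_eq_mul, mul_one]
        omega
      · have h5 : w i = 2 := (hw i).resolve_left h
        rw [dif_neg h, if_neg h, h5]
        simp only [smul_eq_mul]
        omega
    rw [Finset.sum_add_distrib, ← Finset.mul_sum, ← h3] at h4
    omega
  · rintro ⟨ε, α, hα⟩ ⟨ε', α', hα'⟩ hab
    have h2 := congrArg Subtype.val hab
    dsimp only at h2
    have h3 := Finsupp.equivFunOnFinite.symm.injective h2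
    have h4 : ∀ i : J, α i = α' i := by
      intro i
      have h5 := congrFun h3 i
      by_cases h : w i = 1
      · rw [dif_pos h, dif_pos h] at h5
        have h6 := (ε ⟨i, h⟩).2
        have h7 := (ε' ⟨i, h⟩).2
        omega
      · rw [dif_neg h, dif_neg h] at h5
        exact h5
    have h5 : α = α' := by ext i; exact h4 i
    have h6 : ε = ε' := by
      funext ⟨i, h⟩
      have h5 := congrFun h3 i
      rw [dif_pos h, dif_pos h, h4 i] at h5
      apply Fin.ext
      omega
    subst h5 h6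
    rfl

noncomputable def SS (h : J → MvPolynomial J k) (M : Finset (J →₀ ℕ)) (i : ℕ) :
    Submodule k (MvPolynomial J k) :=
  Submodule.span k {p | ∃ m ∈ M, ∃ r : MvPolynomial J k, r.totalDegree ≤ i ∧
    p = MvPolynomial.aeval h r * MvPolynomial.monomial m 1}

noncomputable def AA (h : J → MvPolynomial J k) (i : ℕ) : Submodule k (MvPolynomial J k) :=
  Submodule.map (MvPolynomial.aeval h).toLinearMap (MvPolynomial.restrictTotalDegree J k i)

noncomputable def TT (h : J → MvPolynomial J k) (M : Finset (J →₀ ℕ)) (i : ℕ) :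
    (M → AA h i) →ₗ[k] MvPolynomial J k :=
  ∑ m : M, (LinearMap.mulRight k (MvPolynomial.monomial m.1 (1 : k))) ∘ₗ
    ((AA h i).subtype ∘ₗ LinearMap.proj m)

theorem TT_apply (h : J → MvPolynomial J k) (M : Finset (J →₀ ℕ)) (i : ℕ) (r : M → AA h i) :
    TT h M i r = ∑ m : M, (r m : MvPolynomial J k) * MvPolynomial.monomial m.1 (1 : k) := by
  simp [TT, LinearMap.sum_apply]

theorem SS_le (h : J → MvPolynomial J k) (M : Finset (J →₀ ℕ)) (i : ℕ) :
    SS h M i ≤ LinearMap.range (TT h M i) := by
  classical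
  refine Submodule.span_le.2 ?_
  rintro _ ⟨m, hm, r, hr, rfl⟩
  refine ⟨Pi.single ⟨m, hm⟩ ⟨MvPolynomial.aeval h r, ?_⟩, ?_⟩
  · exact ⟨r, (MvPolynomial.mem_restrictTotalDegree _ _ _).2 hr, rfl⟩
  · rw [TT_apply, Finset.sum_eq_single ⟨m, hm⟩]
    · rw [Pi.single_eq_same]
    · intro b _ hb
      rw [Pi.single_eq_of_ne hb]
      simp
    · intro hcon
      exact absurd (mem_univ _) hcon

instance finAA (h : J → MvPolynomial J k) (i : ℕ) : FiniteDimensional k (AA h i) := by
  unfold AA
  infer_instance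

theorem finSS (h : J → MvPolynomial J k) (M : Finset (J →₀ ℕ)) (i : ℕ) :
    FiniteDimensional k (SS h M i) :=
  Submodule.finiteDimensional_of_le (SS_le h M i)

theorem finrank_SS_le (h : J → MvPolynomial J k) (M : Finset (J →₀ ℕ)) (i : ℕ) :
    Module.finrank k (SS h M i) ≤ M.card * Module.finrank k (AA h i) := by
  have h1 := Submodule.finrank_mono (SS_le h M i)
  have h2 := LinearMap.finrank_range_le (TT h M i)
  rw [Module.finrank_pi_fintype] at h2
  simp only [sum_const, card_univ, Fintype.card_coe, smul_eq_mul] at h2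
  exact h1.trans h2

theorem card_le_SS (hw : ∀ j, w j = 1 ∨ w j = 2) (h : J → MvPolynomial J k)
    (M : Finset (J →₀ ℕ)) (d : ℕ)
    (hs : ∀ P : MvPolynomial J k, ∃ r : (J →₀ ℕ) → MvPolynomial J k,
      (∀ m, (r m).totalDegree ≤ d / 2) ∧
      P - ∑ m ∈ M, MvPolynomial.aeval h (r m) * MvPolynomial.monomial m 1 ∈ FF w k d) :
    Nat.card {m : J →₀ ℕ | Finsupp.weight w m < d} ≤ Module.finrank k (SS h M (d / 2)) := by
  classical
  have hfin := finite_wt w hw d
  haveI := hfin.to_subtype
  letI : Fintype {m : J →₀ ℕ | Finsupp.weight w m < d} := Fintype.ofFinite _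
  let κ : MvPolynomial J k →ₗ[k] ({m : J →₀ ℕ | Finsupp.weight w m < d} → k) :=
    LinearMap.pi (fun m => MvPolynomial.lcoeff k m.1)
  have hκ : ∀ p m, κ p m = p.coeff m.1 := fun p m => rfl
  have htop : Submodule.map κ (SS h M (d / 2)) = ⊤ := by
    rw [eq_top_iff]
    intro y _
    let P : MvPolynomial J k := ∑ m : {m : J →₀ ℕ | Finsupp.weight w m < d},
      MvPolynomial.monomial m.1 (y m)
    obtain ⟨r, hr, hr'⟩ := hs P
    refine ⟨∑ m ∈ M, MvPolynomial.aeval h (r m) * MvPolynomial.monomial m 1, ?_, ?_⟩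
    · refine sum_mem (fun m hm => Submodule.subset_span ⟨m, hm, r m, hr m, rfl⟩)
    · funext m
      rw [hκ]
      have h1 : (P - ∑ m ∈ M, MvPolynomial.aeval h (r m) * MvPolynomial.monomial m 1).coeff m.1
          = 0 := by
        by_contra hne
        have := (mem_FF w d _).1 hr' m.1 (MvPolynomial.mem_support_iff.2 hne)
        exact absurd m.2 (not_lt.2 this)
      rw [MvPolynomial.coeff_sub, sub_eq_zero] at h1
      rw [← h1]
      simp only [P, MvPolynomial.coeff_sum, MvPolynomial.coeff_monomial]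
      rw [Finset.sum_eq_single m]
      · simp
      · intro b _ hb
        rw [if_neg]
        intro hcon
        exact hb (Subtype.ext hcon)
      · intro hcon
        exact absurd (mem_univ _) hcon
  haveI := finSS h M (d / 2)
  have h2 := Submodule.finrank_map_le κ (SS h M (d / 2))
  rw [htop, finrank_top, Module.finrank_fintype_fun_eq_card] at h2
  rw [Nat.card_eq_fintype_card]
  exact h2

end growth

end Pool.Agent.H789R3
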