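import Mathlib
import Pool.Agent.H789R3.Growth3

set_option autoImplicit false
set_option linter.style.haveILetI false
set_option linter.unusedSectionVars false

namespace Pool.Agent.H789R3

open Finset

section growth
variable {k : Type} [Field k] {J : Type} [Fintype J] [DecidableEq J] (w : J → ℕ)

theorem core (hw : ∀ j, w j = 1 ∨ w j = 2) (q h : J → MvPolynomial J k)
    (hq : ∀ e, ∀ m ∈ (q e).support, Finsupp.weight w m = 2)
    (hh : ∀ e, h e - q e ∈ FF w k 3)
    (hX : ∀ j, ∃ N, (MvPolynomial.X j : MvPolynomial J k) ^ N ∈ Ideal.span (Set.range q)) :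
    ∃ (M : Finset (J →₀ ℕ)) (c : ℕ), ∀ j,
      2 ^ (Fintype.card {i : J // w i = 1}) * NN k J j ≤ Module.finrank k (SS h M (j + c)) := by
  obtain ⟨W0, hW0⟩ := mono_mem w hw q hq hX
  have hfin := finite_wt w hw (W0 + 2)
  refine ⟨hfin.toFinset, (Fintype.card {i : J // w i = 1} + 1) / 2, fun j => ?_⟩
  have h1 := span_claim w q h hq hh (W0 + 2) (fun m hm => hW0 m (by omega)) (by omega)
    hfin.toFinset (fun m hm => by
      rw [Set.Finite.mem_toFinset]
      exact hm) (2 * j + Fintype.card {i : J // w i = 1} + 1)
  have h2 := card_le_SS w hw h hfin.toFinset _ h1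
  have h3 := count_le (k := k) w hw j
  have h4 : (2 * j + Fintype.card {i : J // w i = 1} + 1) / 2 =
      j + (Fintype.card {i : J // w i = 1} + 1) / 2 := by omega
  rw [h4] at h2
  exact h3.trans h2

theorem NN_mono {i j : ℕ} (hij : i ≤ j) : NN k J i ≤ NN k J j := by
  apply Submodule.finrank_mono
  intro p hp
  rw [MvPolynomial.mem_restrictTotalDegree] at hp ⊢
  exact hp.trans hij

theorem finrank_AA_le (h : J → MvPolynomial J k) (Φ : MvPolynomial J k) (hΦ : Φ ≠ 0)
    (hΦ0 : MvPolynomial.aeval h Φ = 0) (i : ℕ) :
    Module.finrank k (AA h (i + Φ.totalDegree)) + NN k J i ≤ NN k J (i + Φ.totalDegree) := by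
  let P := MvPolynomial.restrictTotalDegree J k (i + Φ.totalDegree)
  let a : P →ₗ[k] MvPolynomial J k := (MvPolynomial.aeval h).toLinearMap ∘ₗ P.subtype
  have h1 : LinearMap.range a = AA h (i + Φ.totalDegree) := by
    rw [LinearMap.range_comp, Submodule.range_subtype]
    rfl
  have h2 := LinearMap.finrank_range_add_finrank_ker a
  rw [h1] at h2
  have h3 : NN k J i ≤ Module.finrank k (LinearMap.ker a) := by
    let g : MvPolynomial.restrictTotalDegree J k i →ₗ[k] LinearMap.ker a :=
      LinearMap.codRestrict (LinearMap.ker a)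
        (LinearMap.codRestrict P ((LinearMap.mulLeft k Φ) ∘ₗ
          (MvPolynomial.restrictTotalDegree J k i).subtype) (by
            intro c
            rw [MvPolynomial.mem_restrictTotalDegree]
            have h4 := (MvPolynomial.mem_restrictTotalDegree _ _ _).1 c.2
            refine (MvPolynomial.totalDegree_mul _ _).trans ?_
            change Φ.totalDegree + (c : MvPolynomial J k).totalDegree ≤ _
            omega)) (by
        intro c
        rw [LinearMap.mem_ker]
        change MvPolynomial.aeval h (Φ * (c : MvPolynomial J k)) = 0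
        rw [map_mul, hΦ0, zero_mul])
    have hg : Function.Injective g := by
      intro x y hxy
      have h5 : Φ * (x : MvPolynomial J k) = Φ * (y : MvPolynomial J k) :=
        congrArg (fun z : LinearMap.ker a => ((z : P) : MvPolynomial J k)) hxy
      exact Subtype.ext (mul_left_cancel₀ hΦ h5)
    exact LinearMap.finrank_le_finrank_of_injective hg
  change _ = NN k J (i + Φ.totalDegree) at h2
  omega

theorem aeval_injective (hw : ∀ j, w j = 1 ∨ w j = 2) (q h : J → MvPolynomial J k)
    (hq : ∀ e, ∀ m ∈ (q e).support, Finsupp.weight w m = 2)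
    (hh : ∀ e, h e - q e ∈ FF w k 3)
    (hX : ∀ j, ∃ N, (MvPolynomial.X j : MvPolynomial J k) ^ N ∈ Ideal.span (Set.range q)) :
    Function.Injective (MvPolynomial.aeval h : MvPolynomial J k →ₐ[k] MvPolynomial J k) := by
  rw [injective_iff_map_eq_zero]
  intro Φ hΦ0
  by_contra hΦ
  obtain ⟨M, c, hMc⟩ := core w hw q h hq hh hX
  refine no_geom (NN k J) (Fintype.card J) NN_zero NN_le (c + Φ.totalDegree) M.card (fun j => ?_)
  have h1 := hMc (j + Φ.totalDegree)
  have h2 := finrank_SS_le h M (j + Φ.totalDegree + c)
  have h3 := finrank_AA_le h Φ hΦ hΦ0 (j + c)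
  have h4 : j + Φ.totalDegree + c = j + c + Φ.totalDegree := by ring
  rw [h4] at h1 h2
  have h5 : NN k J j ≤ 2 ^ (Fintype.card {i : J // w i = 1}) * NN k J (j + Φ.totalDegree) := by
    refine (NN_mono (Nat.le_add_right j Φ.totalDegree)).trans ?_
    exact Nat.le_mul_of_pos_left _ (by positivity)
  have h6 : NN k J j ≤ NN k J (j + c) := NN_mono (Nat.le_add_right j c)
  rw [← add_assoc]
  nlinarith

variable (K L : Type) [Field K] [Field L] [Algebra (MvPolynomial J k) K]
  [IsFractionRing (MvPolynomial J k) K] [Algebra (MvPolynomial J k) L]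
  [IsFractionRing (MvPolynomial J k) L] [Algebra K L] [Algebra k L]
  [IsScalarTower k (MvPolynomial J k) L]

theorem fin_dim (h : J → MvPolynomial J k)
    (hinj : Function.Injective (MvPolynomial.aeval h : MvPolynomial J k →ₐ[k] MvPolynomial J k))
    (hcomp : ∀ r : MvPolynomial J k, algebraMap K L (algebraMap (MvPolynomial J k) K r) =
      algebraMap (MvPolynomial J k) L (MvPolynomial.aeval h r)) :
    FiniteDimensional K L := by
  have hind : AlgebraicIndependent k h := hinj
  have htb : IsTranscendenceBasis k h := by
    apply hind.isTranscendenceBasis_of_trdeg_le_of_finite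
    rw [MvPolynomial.trdeg_of_isDomain]
    simp
  have halg := htb.isAlgebraic
  have hintX : ∀ x ∈ Set.range (fun j : J => algebraMap (MvPolynomial J k) L
      (MvPolynomial.X j)), IsIntegral K x := by
    rintro _ ⟨j, rfl⟩
    rw [← isAlgebraic_iff_isIntegral]
    let f : Algebra.adjoin k (Set.range h) →+* K :=
      (algebraMap (MvPolynomial J k) K).comp (hind.aevalEquiv.symm : _ ≃+* _).toRingHom
    have hf : Function.Injective f := by
      intro x y hxy
      have h1 := IsFractionRing.injective (MvPolynomial J k) K hxy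
      exact hind.aevalEquiv.symm.injective h1
    refine (halg.isAlgebraic (MvPolynomial.X j)).ringHom_of_comp_eq f
      (algebraMap (MvPolynomial J k) L) hf ?_
    ext x
    obtain ⟨y, rfl⟩ := hind.aevalEquiv.surjective x
    change algebraMap K L (algebraMap (MvPolynomial J k) K
      (hind.aevalEquiv.symm (hind.aevalEquiv y))) = algebraMap (MvPolynomial J k) L
        (hind.aevalEquiv y : MvPolynomial J k)
    rw [AlgEquiv.symm_apply_apply, hcomp]
    rfl
  haveI := IntermediateField.finiteDimensional_adjoin hintX
  have htop : IntermediateField.adjoin K (Set.range (fun j : J =>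
      algebraMap (MvPolynomial J k) L (MvPolynomial.X j))) = ⊤ := by
    rw [eq_top_iff]
    intro x _
    have hB : ∀ p : MvPolynomial J k, algebraMap (MvPolynomial J k) L p ∈
        IntermediateField.adjoin K (Set.range (fun j : J =>
          algebraMap (MvPolynomial J k) L (MvPolynomial.X j))) := by
      intro p
      induction p using MvPolynomial.induction_on with
      | C r =>
        have h1 : algebraMap (MvPolynomial J k) L (MvPolynomial.C r) =
            algebraMap K L (algebraMap (MvPolynomial J k) K (MvPolynomial.C r)) := by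
          rw [hcomp, MvPolynomial.aeval_C]
          rfl
        rw [h1]
        exact IntermediateField.algebraMap_mem _ _
      | add p q hp hq => rw [map_add]; exact add_mem hp hq
      | mul_X p j hp =>
        rw [map_mul]
        exact mul_mem hp (IntermediateField.subset_adjoin _ _ ⟨j, rfl⟩)
    obtain ⟨a, b, hb, rfl⟩ := IsFractionRing.div_surjective (A := MvPolynomial J k) x
    exact div_mem (hB a) (hB b)
  rw [htop] at this
  exact (IntermediateField.topEquiv (F := K) (E := L)).toLinearEquiv.finiteDimensional

theorem degree_ge [Algebra k K] [IsScalarTower k (MvPolynomial J k) K]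
    (hw : ∀ j, w j = 1 ∨ w j = 2) (q h : J → MvPolynomial J k)
    (hq : ∀ e, ∀ m ∈ (q e).support, Finsupp.weight w m = 2)
    (hh : ∀ e, h e - q e ∈ FF w k 3)
    (hX : ∀ j, ∃ N, (MvPolynomial.X j : MvPolynomial J k) ^ N ∈ Ideal.span (Set.range q))
    (hcomp : ∀ r : MvPolynomial J k, algebraMap K L (algebraMap (MvPolynomial J k) K r) =
      algebraMap (MvPolynomial J k) L (MvPolynomial.aeval h r)) :
    2 ^ (Fintype.card {i : J // w i = 1}) ≤ Module.finrank K L := by
  classical
  have hinj := aeval_injective w hw q h hq hh hX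
  haveI := fin_dim K L h hinj hcomp
  obtain ⟨M, c, hMc⟩ := core w hw q h hq hh hX
  by_contra hlt
  rw [not_le] at hlt
  let D := Module.finrank K L
  let b : Module.Basis (Fin D) K L := Module.finBasis K L
  obtain ⟨den, hden⟩ := IsLocalization.exist_integer_multiples_of_finite
    (nonZeroDivisors (MvPolynomial J k)) (fun x : M × Fin D =>
      b.repr (algebraMap (MvPolynomial J k) L (MvPolynomial.monomial x.1.1 1)) x.2)
  choose a ha using hden
  have hden0 : (den : MvPolynomial J k) ≠ 0 := nonZeroDivisors.ne_zero den.2
  obtain ⟨δ, hδ⟩ : ∃ δ, ∀ x, (a x).totalDegree ≤ δ :=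
    ⟨∑ x, (a x).totalDegree, fun x =>
      Finset.single_le_sum (f := fun x => (a x).totalDegree) (fun _ _ => Nat.zero_le _)
        (mem_univ x)⟩
  have hbound : ∀ i, Module.finrank k (SS h M i) ≤ D * NN k J (i + δ) := by
    intro i
    let U : (Fin D → MvPolynomial.restrictTotalDegree J k (i + δ)) →ₗ[k] L :=
      ∑ l : Fin D, (LinearMap.mulRight k (b l)) ∘ₗ
        ((IsScalarTower.toAlgHom k (MvPolynomial J k) L).toLinearMap ∘ₗ
          ((MvPolynomial.aeval h).toLinearMap ∘ₗ
            ((MvPolynomial.restrictTotalDegree J k (i + δ)).subtype ∘ₗ LinearMap.proj l)))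
    have hU : ∀ r, U r = ∑ l : Fin D, algebraMap (MvPolynomial J k) L
        (MvPolynomial.aeval h (r l : MvPolynomial J k)) * b l := by
      intro r
      simp [U, LinearMap.sum_apply]
    let μ : MvPolynomial J k →ₗ[k] L :=
      (LinearMap.mulLeft k (algebraMap (MvPolynomial J k) L
        (MvPolynomial.aeval h (den : MvPolynomial J k)))) ∘ₗ
        (IsScalarTower.toAlgHom k (MvPolynomial J k) L).toLinearMap
    have hμ : ∀ p, μ p = algebraMap (MvPolynomial J k) L
        (MvPolynomial.aeval h (den : MvPolynomial J k)) * algebraMap (MvPolynomial J k) L p :=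
      fun p => rfl
    have hμinj : Function.Injective μ := by
      rw [injective_iff_map_eq_zero]
      intro p hp
      rw [hμ, mul_eq_zero] at hp
      rcases hp with hp | hp
      · exfalso
        have h1 := (IsFractionRing.injective (MvPolynomial J k) L)
          (hp.trans (map_zero _).symm)
        exact hden0 (hinj (h1.trans (map_zero _).symm))
      · exact (IsFractionRing.injective (MvPolynomial J k) L) (hp.trans (map_zero _).symm)
    have hle : Submodule.map μ (SS h M i) ≤ LinearMap.range U := by
      unfold SS
      rw [Submodule.map_span, Submodule.span_le]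
      rintro _ ⟨_, ⟨m, hm, r, hr, rfl⟩, rfl⟩
      refine ⟨fun l => ⟨r * a (⟨m, hm⟩, l), ?_⟩, ?_⟩
      · rw [MvPolynomial.mem_restrictTotalDegree]
        exact (MvPolynomial.totalDegree_mul _ _).trans (add_le_add hr (hδ _))
      · rw [hU, hμ]
        have h1 := b.sum_repr (algebraMap (MvPolynomial J k) L (MvPolynomial.monomial m 1))
        rw [map_mul, ← h1, mul_sum, mul_sum]
        refine sum_congr rfl (fun l _ => ?_)
        have h2 := ha (⟨m, hm⟩, l)
        dsimp only at h2
        rw [Algebra.smul_def] at h2
        dsimp only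
        rw [map_mul, map_mul, ← hcomp (a _), h2]
        change _ * algebraMap K L (algebraMap (MvPolynomial J k) K (den : MvPolynomial J k) * _) * _
          = _
        rw [map_mul, hcomp, Algebra.smul_def]
        ring
    have h1 : Module.finrank k (SS h M i) = Module.finrank k (Submodule.map μ (SS h M i)) :=
      (LinearEquiv.finrank_eq (Submodule.equivMapOfInjective μ hμinj (SS h M i)))
    have h2 := Submodule.finrank_mono hle
    have h3 := LinearMap.finrank_range_le U
    rw [Module.finrank_pi_fintype] at h3
    simp only [sum_const, card_univ, Fintype.card_fin, smul_eq_mul] at h3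
    rw [h1]
    exact h2.trans h3
  refine no_geom (NN k J) (Fintype.card J) NN_zero NN_le (c + δ) D (fun j => ?_)
  have h1 := (hMc j).trans (hbound (j + c))
  rw [add_assoc] at h1
  exact (Nat.mul_le_mul_right _ hlt).trans h1

end growth

end Pool.Agent.H789R3
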