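import Mathlib
import Pool.Agent.H789R3.Growth4

set_option autoImplicit false
set_option linter.style.haveILetI false
set_option linter.unusedSectionVars false

namespace Pool.Agent.H789R3

open Finset

section growth
variable {J : Type} [Fintype J] [DecidableEq J] (w : J → ℕ)

theorem many_homs_aux (K L : Type) [Field K] [Field L] [Algebra (MvPolynomial J ℚ) K]
    [IsFractionRing (MvPolynomial J ℚ) K] [Algebra (MvPolynomial J ℚ) L]
    [IsFractionRing (MvPolynomial J ℚ) L] [Algebra K L] [Algebra ℚ L]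
    [IsScalarTower ℚ (MvPolynomial J ℚ) L] [Algebra ℚ K] [IsScalarTower ℚ (MvPolynomial J ℚ) K]
    (hw : ∀ j, w j = 1 ∨ w j = 2) (q h : J → MvPolynomial J ℚ)
    (hq : ∀ e, ∀ m ∈ (q e).support, Finsupp.weight w m = 2)
    (hh : ∀ e, h e - q e ∈ FF w ℚ 3)
    (hX : ∀ j, ∃ N, (MvPolynomial.X j : MvPolynomial J ℚ) ^ N ∈ Ideal.span (Set.range q))
    (hcomp : ∀ r : MvPolynomial J ℚ, algebraMap K L (algebraMap (MvPolynomial J ℚ) K r) =
      algebraMap (MvPolynomial J ℚ) L (MvPolynomial.aeval h r))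
    (lam : MvPolynomial J ℚ →+* ℂ) (hlam : Function.Injective lam) :
    ∃ Φ : Fin (2 ^ (Fintype.card {i : J // w i = 1})) → (MvPolynomial J ℚ →+* ℂ),
      Function.Injective Φ ∧ ∀ i r, Φ i (MvPolynomial.aeval h r) = lam r := by
  haveI := fin_dim K L h (aeval_injective w hw q h hq hh hX) hcomp
  have hdeg := degree_ge w K L hw q h hq hh hX hcomp
  let lamK : K →+* ℂ := IsFractionRing.lift hlam
  letI : Algebra K ℂ := lamK.toAlgebra
  haveI : CharZero K := charZero_of_injective_algebraMap (algebraMap ℚ K).injective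
  have hcard : Fintype.card (L →ₐ[K] ℂ) = Module.finrank K L := AlgHom.card K L ℂ
  rw [← hcard] at hdeg
  obtain ⟨f⟩ : Nonempty (Fin (2 ^ (Fintype.card {i : J // w i = 1})) ↪ (L →ₐ[K] ℂ)) := by
    apply Function.Embedding.nonempty_of_card_le
    rw [Fintype.card_fin]
    exact hdeg
  refine ⟨fun i => ((f i : L →+* ℂ)).comp (algebraMap (MvPolynomial J ℚ) L), ?_, ?_⟩
  · intro i j hij
    apply f.injective
    apply AlgHom.coe_ringHom_injective
    exact IsLocalization.ringHom_ext (nonZeroDivisors (MvPolynomial J ℚ)) hij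
  · intro i r
    change f i (algebraMap (MvPolynomial J ℚ) L (MvPolynomial.aeval h r)) = _
    rw [← hcomp, AlgHom.commutes]
    change lamK (algebraMap (MvPolynomial J ℚ) K r) = _
    exact IsFractionRing.lift_algebraMap hlam r

theorem many_homs (hw : ∀ j, w j = 1 ∨ w j = 2) (q h : J → MvPolynomial J ℚ)
    (hq : ∀ e, ∀ m ∈ (q e).support, Finsupp.weight w m = 2)
    (hh : ∀ e, h e - q e ∈ FF w ℚ 3)
    (hX : ∀ j, ∃ N, (MvPolynomial.X j : MvPolynomial J ℚ) ^ N ∈ Ideal.span (Set.range q))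
    (lam : MvPolynomial J ℚ →+* ℂ) (hlam : Function.Injective lam) :
    ∃ Φ : Fin (2 ^ (Fintype.card {i : J // w i = 1})) → (MvPolynomial J ℚ →+* ℂ),
      Function.Injective Φ ∧ ∀ i r, Φ i (MvPolynomial.aeval h r) = lam r := by
  have hinj := aeval_injective w hw q h hq hh hX
  let g : MvPolynomial J ℚ →+* FractionRing (MvPolynomial J ℚ) :=
    (algebraMap (MvPolynomial J ℚ) (FractionRing (MvPolynomial J ℚ))).comp
      (MvPolynomial.aeval h : MvPolynomial J ℚ →ₐ[ℚ] MvPolynomial J ℚ).toRingHom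
  have hg : Function.Injective g :=
    (IsFractionRing.injective (MvPolynomial J ℚ) (FractionRing (MvPolynomial J ℚ))).comp hinj
  let gK : FractionRing (MvPolynomial J ℚ) →+* FractionRing (MvPolynomial J ℚ) :=
    IsFractionRing.lift hg
  refine @many_homs_aux J _ _ w (FractionRing (MvPolynomial J ℚ)) (FractionRing (MvPolynomial J ℚ))
    _ _ _ _ _ _ gK.toAlgebra _ _ _ _ hw q h hq hh hX ?_ lam hlam
  intro r
  change gK (algebraMap (MvPolynomial J ℚ) (FractionRing (MvPolynomial J ℚ)) r) = _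
  exact IsFractionRing.lift_algebraMap hg r

end growth

end Pool.Agent.H789R3
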