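import Mathlib

set_option autoImplicit false
set_option linter.style.haveILetI false
set_option linter.unusedSectionVars false

namespace Pool.Agent.H789R3

open Finset

variable {V : Type} [Fintype V] [DecidableEq V] (T : Type) [Field T]

/-- span of the differences along the edges of `F`. -/
def W1 (F : Finset (Sym2 V)) : Submodule T (V → T) :=
  Submodule.span T {w | ∃ u v, s(u, v) ∈ F ∧ w = Pi.single u 1 - Pi.single v 1}

theorem W1_mem (F : Finset (Sym2 V)) {u v : V} (h : s(u, v) ∈ F) :
    (Pi.single u 1 - Pi.single v 1 : V → T) ∈ W1 T F :=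
  Submodule.subset_span ⟨u, v, h, rfl⟩

theorem W1_reach (F : Finset (Sym2 V)) {u v : V}
    (h : (SimpleGraph.fromEdgeSet (F : Set (Sym2 V))).Reachable u v) :
    (Pi.single u 1 - Pi.single v 1 : V → T) ∈ W1 T F := by
  obtain ⟨p⟩ := h
  induction p with
  | nil => simp
  | cons h p ih =>
    rename_i a b c
    have h1 : s(a, b) ∈ F := by
      have := (SimpleGraph.fromEdgeSet_adj _).1 h
      exact_mod_cast this.1
    have e : (Pi.single a 1 - Pi.single c 1 : V → T)
        = (Pi.single a 1 - Pi.single b 1) + (Pi.single b 1 - Pi.single c 1) := by abel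
    rw [e]
    exact add_mem (W1_mem T F h1) ih

/-- rank lower bound. -/
theorem sparse_rank (E F : Finset (Sym2 V)) (hFE : F ⊆ E) (hF : F.Nonempty)
    (hdiag : ∀ e ∈ E, ¬ e.IsDiag)
    (hE : ∀ S : Finset V, 2 ≤ S.card →
      (E.filter (fun e => ∀ v ∈ e, v ∈ S)).card + 3 ≤ 2 * S.card) :
    F.card + 1 ≤ 2 * Module.finrank T (W1 T F) := by
  classical
  set H := SimpleGraph.fromEdgeSet (F : Set (Sym2 V)) with hH
  let C := H.ConnectedComponent
  let cc : V → C := H.connectedComponentMk
  -- finrank lower bound
  have hrank : Fintype.card V ≤ Module.finrank T (W1 T F) + Fintype.card C := by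
    let Θ : (V → T) →ₗ[T] (C → T) :=
      { toFun := fun p c => ∑ v ∈ univ.filter (fun v => cc v = c), p v
        map_add' := by intro p q; ext c; simp [sum_add_distrib]
        map_smul' := by intro a p; ext c; simp [mul_sum] }
    have hker : LinearMap.ker Θ ≤ W1 T F := by
      intro p hp
      rw [LinearMap.mem_ker] at hp
      let rep : C → V := fun c => Quot.out c
      have hrep : ∀ c, cc (rep c) = c := fun c => Quot.out_eq c
      have e : p = ∑ v, p v • (Pi.single v 1 - Pi.single (rep (cc v)) 1 : V → T) := by
        have e1 : ∑ v, p v • (Pi.single (rep (cc v)) 1 : V → T) = 0 := by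
          have : ∑ v, p v • (Pi.single (rep (cc v)) 1 : V → T)
              = ∑ c : C, (∑ v ∈ univ.filter (fun v => cc v = c), p v) •
                  (Pi.single (rep c) 1 : V → T) := by
            rw [← Finset.sum_fiberwise (s := univ) (g := cc)]
            refine sum_congr rfl (fun c _ => ?_)
            rw [sum_smul]
            refine sum_congr rfl (fun v hv => ?_)
            rw [(mem_filter.1 hv).2]
          rw [this]
          refine sum_eq_zero (fun c _ => ?_)
          have := congrFun hp c
          change ∑ v ∈ univ.filter (fun v => cc v = c), p v = 0 at this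
          rw [this, zero_smul]
        simp only [smul_sub, sum_sub_distrib]
        rw [e1, sub_zero]
        ext u
        simp [Finset.sum_apply, Pi.single_apply]
      rw [e]
      refine sum_mem (fun v _ => Submodule.smul_mem _ _ ?_)
      apply W1_reach
      exact (SimpleGraph.ConnectedComponent.exact (by exact (hrep (cc v)).symm))
    have h1 := LinearMap.finrank_range_add_finrank_ker Θ
    have h2 : Module.finrank T (LinearMap.range Θ) ≤ Fintype.card C := by
      refine (Submodule.finrank_le _).trans ?_
      rw [Module.finrank_fintype_fun_eq_card]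
    have h3 := Submodule.finrank_mono hker
    rw [Module.finrank_fintype_fun_eq_card] at h1
    omega
  -- counting
  let S : C → Finset V := fun c => univ.filter (fun v => cc v = c)
  let Fc : C → Finset (Sym2 V) := fun c => F.filter (fun e => ∀ v ∈ e, v ∈ S c)
  have hcov : F ⊆ univ.biUnion Fc := by
    intro e he
    induction e using Sym2.ind with
    | _ u v =>
      rw [mem_biUnion]
      refine ⟨cc u, mem_univ _, ?_⟩
      simp only [Fc, S, mem_filter, mem_univ, true_and, Sym2.mem_iff]
      refine ⟨he, ?_⟩
      have huv : cc u = cc v := by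
        by_cases h : u = v
        · rw [h]
        · apply SimpleGraph.ConnectedComponent.sound
          apply SimpleGraph.Adj.reachable
          rw [SimpleGraph.fromEdgeSet_adj]
          exact ⟨he, h⟩
      rintro x (rfl | rfl)
      · rfl
      · exact huv.symm
  have hSne : ∀ c, 1 ≤ (S c).card := by
    intro c
    induction c using SimpleGraph.ConnectedComponent.ind with
    | _ v => exact card_pos.2 ⟨v, by simp [S, cc]⟩
  have hFc : ∀ c, (Fc c).card + 2 ≤ 2 * (S c).card ∧
      ((Fc c).Nonempty → (Fc c).card + 3 ≤ 2 * (S c).card) := by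
    intro c
    rcases Nat.lt_or_ge (S c).card 2 with h | h
    · have h1 : (S c).card = 1 := le_antisymm (by omega) (hSne c)
      have hempty : Fc c = ∅ := by
        rw [eq_empty_iff_forall_notMem]
        intro e he
        induction e using Sym2.ind with
        | _ u v =>
          have h2 := (mem_filter.1 he).2
          have h3 := h2 u (Sym2.mem_mk_left u v)
          have h4 := h2 v (Sym2.mem_mk_right u v)
          obtain ⟨a, ha⟩ := card_eq_one.1 h1
          rw [ha, mem_singleton] at h3 h4
          exact hdiag _ (hFE (mem_filter.1 he).1) (by rw [h3, h4]; exact Sym2.mk_isDiag_iff.2 rfl)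
      rw [hempty]
      simp [h1]
    · have h1 : (Fc c).card ≤ (E.filter (fun e => ∀ v ∈ e, v ∈ S c)).card :=
        card_le_card (fun e he => mem_filter.2 ⟨hFE (mem_filter.1 he).1, (mem_filter.1 he).2⟩)
      have h2 := hE (S c) h
      exact ⟨by omega, fun _ => by omega⟩
  have hsum : F.card ≤ ∑ c : C, (Fc c).card := (card_le_card hcov).trans card_biUnion_le
  have hV : ∑ c : C, (S c).card = Fintype.card V := by
    rw [← card_univ]
    exact (Finset.card_eq_sum_card_fiberwise (f := cc) (s := univ) (t := univ)
      (fun _ _ => by simp)).symm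
  obtain ⟨e0, he0⟩ := hF
  obtain ⟨c0, -, hc0⟩ := mem_biUnion.1 (hcov he0)
  have key : (∑ c : C, (Fc c).card) + 2 * Fintype.card C + 1 ≤ 2 * ∑ c : C, (S c).card := by
    have h1 : ∑ c : C, ((Fc c).card + 2 + if c = c0 then 1 else 0) ≤ ∑ c : C, 2 * (S c).card := by
      refine sum_le_sum (fun c _ => ?_)
      split_ifs with h
      · have := (hFc c).2 (by rw [h]; exact ⟨e0, hc0⟩)
        omega
      · have := (hFc c).1
        omega
    rw [sum_add_distrib, sum_add_distrib, ← mul_sum] at h1
    simp only [sum_const, card_univ, smul_eq_mul, sum_ite_eq', mem_univ, if_true] at h1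
    omega
  omega

end Pool.Agent.H789R3
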