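import Mathlib
import Pool.Agent.H789R3.Sparse

set_option autoImplicit false
set_option linter.style.haveILetI false
set_option linter.unusedSectionVars false

namespace Pool.Agent.H789R3

open Finset

variable {V : Type} [Fintype V] [DecidableEq V] {T : Type} [Field T] [CharZero T]

/-- finite sums of finranks of independent submodules inside a submodule -/
theorem sum_finrank_le {M ι : Type} [AddCommGroup M] [Module T M] [FiniteDimensional T M]
    [Fintype ι] (p : ι → Submodule T M) (hp : iSupIndep p) (X : Submodule T M)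
    (hX : ∀ i, p i ≤ X) : ∑ i, Module.finrank T (p i) ≤ Module.finrank T X := by
  classical
  rw [← Module.finrank_directSum]
  have hinj := hp.dfinsupp_lsum_injective
  let f : (DirectSum ι fun i => p i) →ₗ[T] M := DFinsupp.lsum ℕ fun i => (p i).subtype
  have hf : ∀ x, f x ∈ X := by
    intro x
    have : LinearMap.range f = iSup p := by
      rw [Submodule.iSup_eq_range_dfinsupp_lsum]
    have h1 : f x ∈ iSup p := by rw [← this]; exact ⟨x, rfl⟩
    exact (iSup_le hX) h1
  let g : (DirectSum ι fun i => p i) →ₗ[T] X := f.codRestrict X hf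
  have hg : Function.Injective g := by
    intro a b hab
    apply hinj
    exact congrArg Subtype.val hab
  exact LinearMap.finrank_le_finrank_of_injective hg


/-- linear functional `w ↦ ∑ w u * x u` -/
def lin (x : V → T) : (V → T) →ₗ[T] T :=
  { toFun := fun w => ∑ u, w u * x u
    map_add' := by intro a b; simp [add_mul, sum_add_distrib]
    map_smul' := by intro c a; simp [mul_sum, mul_assoc] }

theorem lin_apply (x w : V → T) : lin x w = ∑ u, w u * x u := rfl

theorem lin_diff (x : V → T) (u v : V) :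
    lin x (Pi.single u 1 - Pi.single v 1) = x u - x v := by
  rw [map_sub, lin_apply, lin_apply]
  simp [Pi.single_apply]

/-- the linear map `w ↦ (v ↦ ∑ u, w u * D v (Y u))` -/
def jac (D : V → Derivation ℤ T T) (Y : V → T) : (V → T) →ₗ[T] (V → T) :=
  LinearMap.pi (fun v => lin (fun u => D v (Y u)))

theorem jac_apply (D : V → Derivation ℤ T T) (Y w : V → T) (v : V) :
    jac D Y w v = lin (fun u => D v (Y u)) w := rfl

theorem jac_diff (D : V → Derivation ℤ T T) (Y : V → T) (u v w : V) :
    jac D Y (Pi.single u 1 - Pi.single v 1) w = D w (Y u - Y v) := by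
  rw [jac_apply, lin_diff, map_sub]

theorem claim (E : Finset (Sym2 V)) (hdiag : ∀ e ∈ E, ¬ e.IsDiag)
    (hcard : E.card + 3 = 2 * Fintype.card V)
    (hE : ∀ S : Finset V, 2 ≤ S.card →
      (E.filter (fun e => ∀ v ∈ e, v ∈ S)).card + 3 ≤ 2 * S.card)
    (D : V → Derivation ℤ T T) (x Y Z : V → T)
    (hD : ∀ v u, D v (x u) = if u = v then 1 else 0)
    (hZ : ∀ u v, s(u, v) ∈ E → (x u - x v) * (Z u - Z v) = (Y u - Y v) ^ 2) :
    ∃ α β : T, ∀ u, Y u = α + β * x u := by
  classical
  by_contra hcon
  have hx : ∀ u v, u ≠ v → x u - x v ≠ 0 := by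
    intro u v huv h
    have h1 : D u (x u - x v) = 1 := by
      rw [map_sub, hD, hD, if_pos rfl, if_neg huv.symm, sub_zero]
    rw [h, map_zero] at h1
    exact zero_ne_one h1
  let m : Sym2 V → T := Sym2.lift ⟨fun u v => (Y u - Y v) / (x u - x v), by
    intro u v
    change (Y u - Y v) / (x u - x v) = (Y v - Y u) / (x v - x u)
    rw [← neg_sub (Y v), ← neg_sub (x v), neg_div_neg_eq]⟩
  have hm : ∀ u v, m s(u, v) = (Y u - Y v) / (x u - x v) := fun u v => rfl
  have hne : ∀ u v, s(u, v) ∈ E → u ≠ v := by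
    intro u v h huv
    exact hdiag _ h (Sym2.mk_isDiag_iff.2 huv)
  have hYe : ∀ u v, s(u, v) ∈ E → Y u - Y v = m s(u, v) * (x u - x v) := by
    intro u v h
    rw [hm, div_mul_cancel₀ _ (hx u v (hne u v h))]
  have hZe : ∀ u v, s(u, v) ∈ E → Z u - Z v = m s(u, v) ^ 2 * (x u - x v) := by
    intro u v h
    have h1 := hZ u v h
    have h2 := hYe u v h
    have h3 := hx u v (hne u v h)
    apply mul_left_cancel₀ h3
    rw [h1, h2]; ring
  let F : T → Finset (Sym2 V) := fun μ => E.filter (fun e => m e = μ)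
  let W : T → Submodule T (V → T) := fun μ => W1 T (F μ)
  let JY := jac D Y
  let JZ := jac D Z
  -- properties on W
  have pspan : ∀ (μ : T) (P : (V → T) → Prop), P 0 → (∀ a b, P a → P b → P (a + b)) →
      (∀ (c : T) a, P a → P (c • a)) →
      (∀ u v, s(u, v) ∈ E → m s(u, v) = μ → P (Pi.single u 1 - Pi.single v 1)) →
      ∀ w ∈ W μ, P w := by
    intro μ P h0 ha hs hg w hw
    induction hw using Submodule.span_induction with
    | mem w hw =>
      obtain ⟨u, v, huv, rfl⟩ := hw
      have := mem_filter.1 huv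
      exact hg u v this.1 this.2
    | zero => exact h0
    | add a b _ _ h1 h2 => exact ha a b h1 h2
    | smul c a _ h1 => exact hs c a h1
  have pJZ : ∀ μ, ∀ w ∈ W μ, JZ w = (2 * μ) • JY w - (μ ^ 2) • w := by
    intro μ
    refine pspan μ _ (by simp) ?_ ?_ ?_
    · intro a b h1 h2
      rw [map_add, map_add, h1, h2]
      ext i; simp; ring
    · intro c a h1
      rw [map_smul, map_smul, h1]
      ext i; simp; ring
    · intro u v huv hmu
      ext w
      simp only [Pi.sub_apply, Pi.smul_apply, smul_eq_mul]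
      rw [jac_diff, jac_diff]
      have h3 := hx u v (hne u v huv)
      have h1 := congrArg (D w) (hZ u v huv)
      rw [Derivation.leibniz, Derivation.leibniz_pow] at h1
      have h2 := hYe u v huv
      have h4 := hZe u v huv
      rw [hmu] at h2 h4
      have h5 : D w (x u - x v) = (Pi.single u 1 : V → T) w - (Pi.single v 1 : V → T) w := by
        rw [map_sub, hD, hD]
        simp [Pi.single_apply, eq_comm]
      rw [← h5]
      apply mul_left_cancel₀ h3
      simp only [smul_eq_mul, nsmul_eq_mul, Nat.cast_ofNat] at h1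
      rw [h4] at h1 ⊢
      rw [h2] at h1 ⊢
      linear_combination h1
  have pJY : ∀ μ, ∀ w ∈ W μ, JY w = μ • w + (lin x w) • (fun v => D v μ) := by
    intro μ
    refine pspan μ _ (by simp) ?_ ?_ ?_
    · intro a b h1 h2
      rw [map_add, map_add, h1, h2]
      ext i; simp; ring
    · intro c a h1
      rw [map_smul, map_smul, h1]
      ext i; simp; ring
    · intro u v huv hmu
      ext w
      simp only [Pi.sub_apply, Pi.add_apply, Pi.smul_apply, smul_eq_mul]
      rw [jac_diff, lin_diff]
      have h2 := hYe u v huv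
      rw [hmu] at h2
      have h5 : D w (x u - x v) = (Pi.single u 1 : V → T) w - (Pi.single v 1 : V → T) w := by
        rw [map_sub, hD, hD]
        simp [Pi.single_apply, eq_comm]
      rw [← h5, h2, Derivation.leibniz]
      simp only [smul_eq_mul]
  have pOne : ∀ μ, ∀ w ∈ W μ, lin (fun _ => (1 : T)) w = 0 := by
    intro μ
    refine pspan μ _ (by simp) ?_ ?_ ?_
    · intro a b h1 h2
      rw [map_add, h1, h2, add_zero]
    · intro c a h1
      rw [map_smul, h1, smul_zero]
    · intro u v huv hmu
      rw [lin_diff, sub_self]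
  have pY : ∀ μ, ∀ w ∈ W μ, lin Y w = μ * lin x w := by
    intro μ
    refine pspan μ _ (by simp) ?_ ?_ ?_
    · intro a b h1 h2
      rw [map_add, map_add, h1, h2]; ring
    · intro c a h1
      rw [map_smul, map_smul, h1]; simp only [smul_eq_mul]; ring
    · intro u v huv hmu
      rw [lin_diff, lin_diff, hYe u v huv, hmu]
  have pZ : ∀ μ, ∀ w ∈ W μ, lin Z w = μ ^ 2 * lin x w := by
    intro μ
    refine pspan μ _ (by simp) ?_ ?_ ?_
    · intro a b h1 h2
      rw [map_add, map_add, h1, h2]; ring
    · intro c a h1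
      rw [map_smul, map_smul, h1]; simp only [smul_eq_mul]; ring
    · intro u v huv hmu
      rw [lin_diff, lin_diff, hZe u v huv, hmu]
  -- the operator
  let C : Module.End T ((V → T) × (V → T)) :=
    LinearMap.prod (LinearMap.snd T (V → T) (V → T))
      (- (JZ.comp (LinearMap.fst T (V → T) (V → T)))
        + (2 : T) • (JY.comp (LinearMap.snd T (V → T) (V → T))))
  have hC : ∀ a b : V → T, C (a, b) = (b, - JZ a + (2 : T) • JY b) := fun a b => rfl
  let W2 : T → Submodule T (V → T) := fun μ => W μ ⊓ LinearMap.ker (lin x)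
  let Λ : ∀ μ : T, (W μ × W2 μ) →ₗ[T] ((V → T) × (V → T)) := fun μ =>
    LinearMap.prod ((W μ).subtype.comp (LinearMap.fst T _ _))
      (μ • ((W μ).subtype.comp (LinearMap.fst T _ _))
        + (W2 μ).subtype.comp (LinearMap.snd T _ _))
  have hΛ : ∀ μ (w : W μ) (w' : W2 μ), Λ μ (w, w') = ((w : V → T), μ • (w : V → T) + w') :=
    fun μ w w' => rfl
  have hΛinj : ∀ μ, Function.Injective (Λ μ) := by
    intro μ
    rw [injective_iff_map_eq_zero]
    rintro ⟨w, w'⟩ h
    rw [hΛ, Prod.mk_eq_zero] at h
    obtain ⟨h1, h2⟩ := h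
    rw [h1, smul_zero, zero_add] at h2
    rw [Prod.mk_eq_zero]
    exact ⟨Subtype.ext h1, Subtype.ext h2⟩
  let 𝓕 : T → Submodule T ((V → T) × (V → T)) := fun μ => LinearMap.range (Λ μ)
  have hFrank : ∀ μ, Module.finrank T (𝓕 μ) = Module.finrank T (W μ) + Module.finrank T (W2 μ) := by
    intro μ
    rw [LinearMap.finrank_range_of_inj (hΛinj μ), Module.finrank_prod]
  have hW2 : ∀ μ, Module.finrank T (W μ) ≤ Module.finrank T (W2 μ) + 1 := by
    intro μ
    have h1 := LinearMap.finrank_range_add_finrank_ker ((lin x).domRestrict (W μ))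
    have h2 : Module.finrank T (LinearMap.range ((lin x).domRestrict (W μ))) ≤ 1 := by
      refine (Submodule.finrank_le _).trans ?_
      rw [Module.finrank_self]
    have h3 : Module.finrank T (LinearMap.ker ((lin x).domRestrict (W μ)))
        ≤ Module.finrank T (W2 μ) := by
      let g : LinearMap.ker ((lin x).domRestrict (W μ)) →ₗ[T] W2 μ :=
        (((W μ).subtype).comp (LinearMap.ker ((lin x).domRestrict (W μ))).subtype).codRestrict
          (W2 μ) (by
            rintro ⟨⟨w, hw⟩, hw2⟩
            exact ⟨hw, hw2⟩)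
      apply LinearMap.finrank_le_finrank_of_injective (f := g)
      intro a b hab
      apply Subtype.ext
      apply Subtype.ext
      have h := congrArg (fun z : W2 μ => (z : V → T)) hab
      exact h
    omega
  have hgen : ∀ μ, 𝓕 μ ≤ C.maxGenEigenspace μ := by
    intro μ
    rintro _ ⟨⟨⟨w, hw⟩, ⟨w', hw'⟩⟩, rfl⟩
    refine (Module.End.mem_maxGenEigenspace C μ _).2 ⟨2, ?_⟩
    rw [hΛ]
    simp only
    have hw'1 : w' ∈ W μ := hw'.1
    have hw'2 : lin x w' = 0 := hw'.2
    have e1 : (C - algebraMap T _ μ) (w, μ • w + w') = (w', μ • w') := by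
      rw [LinearMap.sub_apply, hC, Module.algebraMap_end_apply]
      have a1 := pJZ μ w hw
      have a3 := pJY μ w' hw'1
      rw [hw'2, zero_smul, add_zero] at a3
      rw [map_add, map_smul, a1, a3]
      apply Prod.ext
      · ext i; simp
      · ext i; simp; ring
    have e2 : (C - algebraMap T _ μ) (w', μ • w') = 0 := by
      rw [LinearMap.sub_apply, hC, Module.algebraMap_end_apply]
      have a1 := pJZ μ w' hw'1
      have a3 := pJY μ w' hw'1
      rw [hw'2, zero_smul, add_zero] at a3
      rw [map_smul, a1, a3]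
      apply Prod.ext
      · ext i; simp
      · ext i; simp; ring
    have e0 : (C - μ • (1 : Module.End T ((V → T) × (V → T)))) = (C - algebraMap T _ μ) := by
      rw [Algebra.algebraMap_eq_smul_one]
    rw [e0, pow_two, Module.End.mul_apply, e1, e2]
  -- the annihilator
  let Ξ : ((V → T) × (V → T)) →ₗ[T] (Fin 4 → T) := LinearMap.pi ![
    (lin (fun _ => (1 : T))).comp (LinearMap.fst T _ _),
    (lin (fun _ => (1 : T))).comp (LinearMap.snd T _ _),
    (lin Y).comp (LinearMap.fst T _ _) - (lin x).comp (LinearMap.snd T _ _),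
    (lin Z).comp (LinearMap.fst T _ _) - (lin Y).comp (LinearMap.snd T _ _)]
  have hsub : ∀ μ, 𝓕 μ ≤ LinearMap.ker Ξ := by
    intro μ
    rintro _ ⟨⟨⟨w, hw⟩, ⟨w', hw'⟩⟩, rfl⟩
    rw [hΛ, LinearMap.mem_ker]
    have hw'1 : w' ∈ W μ := hw'.1
    have hw'2 : lin x w' = 0 := hw'.2
    ext i
    fin_cases i
    · simp [Ξ, pOne μ w hw]
    · simp [Ξ, pOne μ w hw, pOne μ w' hw'1]
    · simp [Ξ, pY μ w hw, hw'2]
    · simp [Ξ, pZ μ w hw, pY μ w hw, pY μ w' hw'1, hw'2]
      ring
  have hsurj3 : Function.Surjective (LinearMap.pi ![lin (fun _ => (1 : T)), lin x, lin Y] :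
      (V → T) →ₗ[T] (Fin 3 → T)) := by
    rw [← LinearMap.range_eq_top]
    by_contra hlt
    obtain ⟨f, hf0, hf⟩ := Submodule.exists_le_ker_of_lt_top _ (lt_top_iff_ne_top.2 hlt)
    have hcoef : ∀ u, f (Pi.single 0 1) + f (Pi.single 1 1) * x u + f (Pi.single 2 1) * Y u = 0 := by
      intro u
      have h1 : f ((LinearMap.pi ![lin (fun _ => (1 : T)), lin x, lin Y] :
        (V → T) →ₗ[T] (Fin 3 → T)) (Pi.single u 1)) = 0 := hf ⟨_, rfl⟩
      have h2 : ((LinearMap.pi ![lin (fun _ => (1 : T)), lin x, lin Y] :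
        (V → T) →ₗ[T] (Fin 3 → T)) (Pi.single u 1)) =
          (1 : T) • Pi.single 0 1 + (x u) • Pi.single 1 1 + (Y u) • Pi.single 2 1 := by
        ext i
        fin_cases i <;> simp [lin_apply, Pi.single_apply]
      rw [h2, map_add, map_add, map_smul, map_smul, map_smul] at h1
      simp only [smul_eq_mul] at h1
      linear_combination h1
    by_cases h2 : f (Pi.single 2 1) = 0
    · apply hf0
      obtain ⟨a, b, hab⟩ : ∃ a b : V, a ≠ b := by
        have : 1 < Fintype.card V := by omega
        exact Fintype.exists_pair_of_one_lt_card this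
      have ha := hcoef a
      have hb := hcoef b
      rw [h2] at ha hb
      have h3 : f (Pi.single 1 1) * (x a - x b) = 0 := by linear_combination ha - hb
      have h4 : f (Pi.single 1 1) = 0 := (mul_eq_zero.1 h3).resolve_right (hx a b hab)
      have h5 : f (Pi.single 0 1) = 0 := by rw [h4] at ha; linear_combination ha
      apply LinearMap.pi_ext'
      intro i
      apply LinearMap.ext_ring
      simp only [LinearMap.comp_apply, LinearMap.zero_apply]
      change f (Pi.single i 1) = 0
      fin_cases i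
      · exact h5
      · exact h4
      · exact h2
    · apply hcon
      refine ⟨- f (Pi.single 0 1) / f (Pi.single 2 1), - f (Pi.single 1 1) / f (Pi.single 2 1), ?_⟩
      intro u
      have := hcoef u
      field_simp
      linear_combination this
  have hXi : Function.Surjective Ξ := by
    intro y
    obtain ⟨a, ha⟩ := hsurj3 ![y 0, 0, 0]
    have ha0 := congrFun ha 0
    simp at ha0
    obtain ⟨b, hb⟩ := hsurj3 ![y 1, lin Y a - y 2, lin Z a - y 3]
    have hb0 := congrFun hb 0
    have hb1 := congrFun hb 1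
    have hb2 := congrFun hb 2
    simp at hb0 hb1 hb2
    refine ⟨(a, b), ?_⟩
    ext i
    fin_cases i
    · simp [Ξ, ha0]
    · simp [Ξ, hb0]
    · simp [Ξ, hb1]
    · simp [Ξ, hb2]
  have hker : Module.finrank T (LinearMap.ker Ξ) + 4 = 2 * Fintype.card V := by
    have h1 := LinearMap.finrank_range_add_finrank_ker Ξ
    rw [LinearMap.range_eq_top.2 hXi, finrank_top] at h1
    rw [Module.finrank_prod, Module.finrank_fintype_fun_eq_card, Module.finrank_fintype_fun_eq_card,
      Fintype.card_fin] at h1
    omega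
  have hindep : iSupIndep (fun i : (E.image m) => 𝓕 i.1) := by
    have h1 := C.independent_maxGenEigenspace
    have h2 : iSupIndep (fun i : (E.image m) => C.maxGenEigenspace i.1) :=
      h1.comp Subtype.val_injective
    exact h2.mono (fun i => hgen i.1)
  have hle := sum_finrank_le (fun i : (E.image m) => 𝓕 i.1) hindep (LinearMap.ker Ξ)
    (fun i => hsub i.1)
  have hEc : E.card = ∑ μ ∈ E.image m, (F μ).card :=
    Finset.card_eq_sum_card_image m E
  have hEc2 : E.card ≤ ∑ i : (E.image m), Module.finrank T (𝓕 i.1) := by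
    rw [hEc, ← Finset.sum_coe_sort (E.image m) (fun μ => (F μ).card)]
    refine sum_le_sum (fun i _ => ?_)
    obtain ⟨e, he, hei⟩ := mem_image.1 i.2
    have h1 := sparse_rank T E (F i.1) (filter_subset _ _) ⟨e, mem_filter.2 ⟨he, hei⟩⟩ hdiag hE
    have h2 := hFrank i.1
    have h3 := hW2 i.1
    have h4 : Module.finrank T (W i.1) = Module.finrank T (W1 T (F i.1)) := rfl
    omega
  omega

end Pool.Agent.H789R3
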