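import Mathlib

set_option autoImplicit false
set_option linter.style.haveILetI false

open TensorProduct

namespace Pool.Agent.H789R3

variable {V : Type} [Fintype V] [DecidableEq V] 

theorem exists_der (T : Type) [Field T] [Algebra ℚ T] [Algebra (MvPolynomial V ℚ) T]
    [IsScalarTower ℚ (MvPolynomial V ℚ) T]
    [Algebra (FractionRing (MvPolynomial V ℚ)) T]
    [IsScalarTower (MvPolynomial V ℚ) (FractionRing (MvPolynomial V ℚ)) T]
    [Algebra.IsAlgebraic (FractionRing (MvPolynomial V ℚ)) T] :
    ∃ D : V → Derivation ℤ T T, ∀ v u, D v (algebraMap (MvPolynomial V ℚ) T (MvPolynomial.X u)) =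
      if u = v then 1 else 0 := by
  let S := MvPolynomial V ℚ
  let F := FractionRing S
  haveI : CharZero F := charZero_of_injective_algebraMap (IsFractionRing.injective S F)
  haveI : Algebra.FormallyEtale S F := Algebra.FormallyEtale.of_isLocalization (nonZeroDivisors S)
  haveI : Algebra.IsSeparable F T := inferInstance
  haveI : Algebra.FormallyEtale F T := Algebra.FormallyEtale.of_isSeparable F T
  haveI : Algebra.FormallyEtale S T := Algebra.FormallyEtale.comp S F T
  let e := KaehlerDifferential.tensorKaehlerEquivOfFormallyEtale ℚ S T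
  refine ⟨fun v => (((LinearMap.liftBaseChange T ((Algebra.linearMap S T).comp
    ((KaehlerDifferential.mvPolynomialBasis ℚ V).coord v))).comp e.symm.toLinearMap).compDer
      (KaehlerDifferential.D ℚ T)).restrictScalars ℤ, ?_⟩
  intro v u
  change LinearMap.liftBaseChange T ((Algebra.linearMap S T).comp
    ((KaehlerDifferential.mvPolynomialBasis ℚ V).coord v))
      ((KaehlerDifferential.tensorKaehlerEquivOfFormallyEtale ℚ S T).symm
        (KaehlerDifferential.D ℚ T (algebraMap S T (MvPolynomial.X u)))) = _
  rw [KaehlerDifferential.tensorKaehlerEquivOfFormallyEtale_symm_D_algebraMap]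
  rw [LinearMap.liftBaseChange_tmul]
  have h : ((KaehlerDifferential.mvPolynomialBasis ℚ V).repr
      (KaehlerDifferential.D ℚ (MvPolynomial V ℚ) (MvPolynomial.X u))) v
      = if u = v then 1 else 0 := by
    rw [KaehlerDifferential.mvPolynomialBasis_repr_D_X, Finsupp.single_apply]
  rw [one_smul]
  change algebraMap S T (((KaehlerDifferential.mvPolynomialBasis ℚ V).repr
      (KaehlerDifferential.D ℚ (MvPolynomial V ℚ) (MvPolynomial.X u))) v) = _
  rw [h]
  split_ifs <;> simp

end Pool.Agent.H789R3
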