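import Mathlib
import Pool.Agent.H789R3.Claim
import Pool.Agent.H789R3.Der

set_option autoImplicit false
set_option linter.style.haveILetI false
set_option linter.unusedSectionVars false

namespace Pool.Agent.H789R3

open Finset

variable {V : Type} [Fintype V] [DecidableEq V] (o w : V)

abbrev JJ := {v : V // v ≠ o ∧ v ≠ w} ⊕ {v : V // v ≠ o}

section
variable {k : Type} [CommRing k]

noncomputable def Yp (k : Type) [CommRing k] (v : V) : MvPolynomial (JJ o w) k :=
  if h : v ≠ o ∧ v ≠ w then MvPolynomial.X (Sum.inl ⟨v, h⟩) else 0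

noncomputable def Xp (k : Type) [CommRing k] (v : V) : MvPolynomial (JJ o w) k :=
  if h : v ≠ o then MvPolynomial.X (Sum.inr ⟨v, h⟩) else 0

noncomputable def inP (x : V → k) (u v : V) : MvPolynomial (JJ o w) k :=
  MvPolynomial.C (x u - x v) * (Xp o w k u - Xp o w k v) - (Yp o w k u - Yp o w k v) ^ 2

theorem inP_comm (x : V → k) (u v : V) : inP o w x u v = inP o w x v u := by
  unfold inP
  rw [← neg_sub (x v), map_neg]
  ring

noncomputable def inS (x : V → k) : Sym2 V → MvPolynomial (JJ o w) k :=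
  Sym2.lift ⟨inP o w x, inP_comm o w x⟩

theorem map_Yp {k' : Type} [CommRing k'] (f : k →+* k') (v : V) :
    MvPolynomial.map f (Yp o w k v) = Yp o w k' v := by
  unfold Yp
  split_ifs <;> simp

theorem map_Xp {k' : Type} [CommRing k'] (f : k →+* k') (v : V) :
    MvPolynomial.map f (Xp o w k v) = Xp o w k' v := by
  unfold Xp
  split_ifs <;> simp

theorem map_inS {k' : Type} [CommRing k'] (f : k →+* k') (x : V → k) (e : Sym2 V) :
    MvPolynomial.map f (inS o w x e) = inS o w (fun v => f (x v)) e := by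
  induction e using Sym2.ind with
  | _ u v =>
    change MvPolynomial.map f (inP o w x u v) = inP o w (fun v => f (x v)) u v
    simp only [inP, map_sub, map_mul, map_pow, map_Yp, map_Xp, MvPolynomial.map_C]
end

/-- connectivity of tight sparse graphs -/
theorem const_of_edges {T : Type} [Field T] [CharZero T] (E : Finset (Sym2 V)) (hdiag : ∀ e ∈ E, ¬ e.IsDiag)
    (hcard : E.card + 3 = 2 * Fintype.card V)
    (hE : ∀ S : Finset V, 2 ≤ S.card →
      (E.filter (fun e => ∀ v ∈ e, v ∈ S)).card + 3 ≤ 2 * S.card)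
    (Z : V → T) (hZ : ∀ u v, s(u, v) ∈ E → Z u = Z v) (a b : V) : Z a = Z b := by
  have hV : 1 < Fintype.card V := by omega
  have hne : E.Nonempty := by
    rw [← card_pos]; omega
  have h1 := sparse_rank T E E (subset_refl _) hne hdiag hE
  have hle : W1 T E ≤ LinearMap.ker (lin (fun _ => (1 : T))) := by
    refine Submodule.span_le.2 ?_
    rintro _ ⟨u, v, -, rfl⟩
    change lin (fun _ => (1 : T)) _ = 0
    rw [lin_diff, sub_self]
  have hk : Module.finrank T (LinearMap.ker (lin (V := V) (fun _ => (1 : T)))) + 1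
      = Fintype.card V := by
    have h2 := LinearMap.finrank_range_add_finrank_ker (lin (V := V) (fun _ => (1 : T)))
    have h3 : LinearMap.range (lin (V := V) (fun _ => (1 : T))) = ⊤ := by
      rw [LinearMap.range_eq_top]
      intro y
      refine ⟨Pi.single a y, ?_⟩
      simp [lin_apply, Pi.single_apply]
    rw [h3, finrank_top, Module.finrank_self, Module.finrank_fintype_fun_eq_card] at h2
    omega
  have heq : W1 T E = LinearMap.ker (lin (V := V) (fun _ => (1 : T))) :=
    Submodule.eq_of_le_of_finrank_le hle (by omega)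
  have hle2 : W1 T E ≤ LinearMap.ker (lin Z) := by
    refine Submodule.span_le.2 ?_
    rintro _ ⟨u, v, huv, rfl⟩
    change lin Z _ = 0
    rw [lin_diff, hZ u v huv, sub_self]
  have h4 : (Pi.single a 1 - Pi.single b 1 : V → T) ∈ W1 T E := by
    rw [heq]
    change lin (fun _ => (1 : T)) _ = 0
    rw [lin_diff, sub_self]
  have h5 := hle2 h4
  change lin Z _ = 0 at h5
  rw [lin_diff] at h5
  exact sub_eq_zero.1 h5

theorem point_zero' (how : o ≠ w) (E : Finset (Sym2 V)) (hdiag : ∀ e ∈ E, ¬ e.IsDiag)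
    (hcard : E.card + 3 = 2 * Fintype.card V)
    (hE : ∀ S : Finset V, 2 ≤ S.card →
      (E.filter (fun e => ∀ v ∈ e, v ∈ S)).card + 3 ≤ 2 * S.card)
    (F T : Type) [Field F] [Field T] [CharZero T] [Algebra F T] (xF : V → F)
    (D : V → Derivation ℤ T T)
    (hD : ∀ v u, D v (algebraMap F T (xF u)) = if u = v then 1 else 0)
    (π : MvPolynomial (JJ o w) F →ₐ[F] T)
    (hπ : ∀ e ∈ E, π (inS o w xF e) = 0)
    (j : JJ o w) : π (MvPolynomial.X j) = 0 := by
  let x : V → T := fun v => algebraMap F T (xF v)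
  let Y : V → T := fun v => π (Yp o w F v)
  let Z : V → T := fun v => π (Xp o w F v)
  have hrel : ∀ u v, s(u, v) ∈ E → (x u - x v) * (Z u - Z v) = (Y u - Y v) ^ 2 := by
    intro u v huv
    have h1 := hπ _ huv
    change π (MvPolynomial.C (xF u - xF v) * (Xp o w F u - Xp o w F v) -
      (Yp o w F u - Yp o w F v) ^ 2) = 0 at h1
    have h2 : π (MvPolynomial.C (xF u - xF v)) = x u - x v := by
      change π (algebraMap F _ _) = _
      rw [AlgHom.commutes, map_sub]
    rw [map_sub, map_mul, map_pow, h2, map_sub, map_sub] at h1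
    exact sub_eq_zero.1 h1
  obtain ⟨α, β, hY⟩ := claim E hdiag hcard hE D x Y Z hD hrel
  have hxow : x o - x w ≠ 0 := by
    intro h
    have h1 : D o (x o - x w) = 1 := by
      rw [map_sub, hD, hD, if_pos rfl, if_neg how.symm, sub_zero]
    rw [h, map_zero] at h1
    exact zero_ne_one h1
  have hYo : Y o = 0 := by simp [Y, Yp]
  have hYw : Y w = 0 := by simp [Y, Yp]
  have hZo : Z o = 0 := by simp [Z, Xp]
  have h1 := hY o
  have h2 := hY w
  rw [hYo] at h1
  rw [hYw] at h2
  have hβ : β = 0 := by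
    have : β * (x o - x w) = 0 := by linear_combination h2 - h1
    exact (mul_eq_zero.1 this).resolve_right hxow
  have hα : α = 0 := by rw [hβ] at h1; linear_combination -h1
  have hY0 : ∀ u, Y u = 0 := by intro u; rw [hY u, hα, hβ]; ring
  have hZe : ∀ u v, s(u, v) ∈ E → Z u = Z v := by
    intro u v huv
    have h3 := hrel u v huv
    rw [hY0 u, hY0 v, sub_zero, zero_pow two_ne_zero] at h3
    have huv' : u ≠ v := fun h => hdiag _ huv (Sym2.mk_isDiag_iff.2 h)
    have hxuv : x u - x v ≠ 0 := by
      intro h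
      have h1 : D u (x u - x v) = 1 := by
        rw [map_sub, hD, hD, if_pos rfl, if_neg huv'.symm, sub_zero]
      rw [h, map_zero] at h1
      exact zero_ne_one h1
    exact sub_eq_zero.1 ((mul_eq_zero.1 h3).resolve_left hxuv)
  have hZ0 : ∀ u, Z u = 0 := by
    intro u
    rw [const_of_edges E hdiag hcard hE Z hZe u o, hZo]
  rcases j with ⟨v, hv⟩ | ⟨v, hv⟩
  · have := hY0 v
    simp only [Y, Yp] at this
    rw [dif_pos hv] at this
    exact this
  · have := hZ0 v
    simp only [Z, Xp] at this
    rw [dif_pos hv] at this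
    exact this

theorem point_zero (how : o ≠ w) (E : Finset (Sym2 V)) (hdiag : ∀ e ∈ E, ¬ e.IsDiag)
    (hcard : E.card + 3 = 2 * Fintype.card V)
    (hE : ∀ S : Finset V, 2 ≤ S.card →
      (E.filter (fun e => ∀ v ∈ e, v ∈ S)).card + 3 ≤ 2 * S.card)
    (T : Type) [Field T] [Algebra (FractionRing (MvPolynomial V ℚ)) T]
    [Algebra.IsAlgebraic (FractionRing (MvPolynomial V ℚ)) T]
    (π : MvPolynomial (JJ o w) (FractionRing (MvPolynomial V ℚ)) →ₐ[FractionRing (MvPolynomial V ℚ)] T)
    (hπ : ∀ e ∈ E, π (inS o w (fun v => algebraMap (MvPolynomial V ℚ)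
      (FractionRing (MvPolynomial V ℚ)) (MvPolynomial.X v)) e) = 0)
    (j : JJ o w) : π (MvPolynomial.X j) = 0 := by
  haveI : CharZero (FractionRing (MvPolynomial V ℚ)) := charZero_of_injective_algebraMap
    (IsFractionRing.injective (MvPolynomial V ℚ) _)
  haveI : CharZero T := charZero_of_injective_algebraMap
    (algebraMap (FractionRing (MvPolynomial V ℚ)) T).injective
  letI : Algebra (MvPolynomial V ℚ) T :=
    ((algebraMap (FractionRing (MvPolynomial V ℚ)) T).comp
      (algebraMap (MvPolynomial V ℚ) (FractionRing (MvPolynomial V ℚ)))).toAlgebra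
  haveI : IsScalarTower (MvPolynomial V ℚ) (FractionRing (MvPolynomial V ℚ)) T :=
    IsScalarTower.of_algebraMap_eq (fun _ => rfl)
  haveI : IsScalarTower ℚ (MvPolynomial V ℚ) T := IsScalarTower.of_algebraMap_eq' (Subsingleton.elim _ _)
  obtain ⟨D, hD⟩ := exists_der (V := V) T
  exact point_zero' o w how E hdiag hcard hE _ T _ D hD π hπ j

end Pool.Agent.H789R3
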