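import Mathlib
import Pool.Agent.H789R3.Null

set_option autoImplicit false
set_option linter.style.haveILetI false
set_option linter.unusedSectionVars false

namespace Pool.Agent.H789R3

open Finset

theorem null_generic {F J : Type} [Field F] [Finite J] (I : Ideal (MvPolynomial J F))
    (f : MvPolynomial J F)
    (h : ∀ (T : Type) [Field T] [Algebra F T] [Algebra.IsAlgebraic F T]
      (π : MvPolynomial J F →ₐ[F] T), (∀ g ∈ I, π g = 0) → π f = 0) : f ∈ I.radical := by
  by_contra hf
  have hJ : IsJacobsonRing (MvPolynomial J F) := inferInstance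
  have h1 : I.radical.jacobson = I.radical := hJ.out I.radical_isRadical
  rw [← h1, Ideal.jacobson, Submodule.mem_sInf] at hf
  push Not at hf
  obtain ⟨M, ⟨hIM, hM⟩, hfM⟩ := hf
  letI : Field (MvPolynomial J F ⧸ M) := Ideal.Quotient.field M
  haveI : Module.Finite F (MvPolynomial J F ⧸ M) :=
    finite_of_finite_type_of_isJacobsonRing F (MvPolynomial J F ⧸ M)
  haveI : Algebra.IsAlgebraic F (MvPolynomial J F ⧸ M) := Algebra.IsAlgebraic.of_finite F _
  have := h (MvPolynomial J F ⧸ M) (Ideal.Quotient.mkₐ F M) (by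
    intro g hg
    rw [Ideal.Quotient.mkₐ_eq_mk, Ideal.Quotient.eq_zero_iff_mem]
    exact hIM (Ideal.le_radical hg))
  rw [Ideal.Quotient.mkₐ_eq_mk, Ideal.Quotient.eq_zero_iff_mem] at this
  exact hfM this

attribute [local instance] MvPolynomial.algebraMvPolynomial in
theorem clear_denoms {S F J ι : Type} [CommRing S] [IsDomain S] [Field F] [Algebra S F]
    [IsFractionRing S F] [Fintype ι] (g : MvPolynomial J S) (f : ι → MvPolynomial J S)
    (h : MvPolynomial.map (algebraMap S F) g ∈
      Ideal.span (Set.range (fun i => MvPolynomial.map (algebraMap S F) (f i)))) :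
    ∃ c : S, c ≠ 0 ∧ ∃ A : ι → MvPolynomial J S, MvPolynomial.C c * g = ∑ i, A i * f i := by
  rw [Ideal.mem_span_range_iff_exists_fun] at h
  obtain ⟨A, hA⟩ := h
  obtain ⟨⟨b, hb⟩, hb2⟩ := IsLocalization.exist_integer_multiples_of_finite
    ((nonZeroDivisors S).map (MvPolynomial.C (σ := J))) A
  obtain ⟨c, hc, rfl⟩ := hb
  choose A' hA' using hb2
  refine ⟨c, nonZeroDivisors.ne_zero hc, A', ?_⟩
  have hinj : Function.Injective (MvPolynomial.map (σ := J) (algebraMap S F)) :=
    MvPolynomial.map_injective _ (IsFractionRing.injective S F)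
  apply hinj
  rw [map_mul, map_sum, ← hA, mul_sum]
  refine sum_congr rfl (fun i _ => ?_)
  rw [map_mul, ← mul_assoc]
  congr 1
  have h1 := hA' i
  rw [Algebra.smul_def] at h1
  exact h1.symm

variable {V : Type} [Fintype V] [DecidableEq V] (o w : V)

theorem exists_special (how : o ≠ w) (E : Finset (Sym2 V)) (hdiag : ∀ e ∈ E, ¬ e.IsDiag)
    (hcard : E.card + 3 = 2 * Fintype.card V)
    (hE : ∀ S : Finset V, 2 ≤ S.card →
      (E.filter (fun e => ∀ v ∈ e, v ∈ S)).card + 3 ≤ 2 * S.card) :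
    ∃ x : V → ℚ, x o ≠ x w ∧ ∀ j : JJ o w, ∃ N : ℕ, (MvPolynomial.X j : MvPolynomial (JJ o w) ℚ) ^ N ∈
      Ideal.span (Set.range (fun e : E => inS o w x e.1)) := by
  let S := MvPolynomial V ℚ
  let F := FractionRing S
  let xS : V → S := fun v => MvPolynomial.X v
  have h1 : ∀ j : JJ o w, ∃ N : ℕ, ∃ c : S, c ≠ 0 ∧ ∃ A : E → MvPolynomial (JJ o w) S,
      MvPolynomial.C c * (MvPolynomial.X j) ^ N = ∑ i, A i * inS o w xS i.1 := by
    intro j
    have h2 : (MvPolynomial.X j : MvPolynomial (JJ o w) F) ∈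
        (Ideal.span (Set.range (fun i : E => MvPolynomial.map (algebraMap S F)
          (inS o w xS i.1)))).radical := by
      apply null_generic
      intro T _ _ _ π hπ
      apply point_zero o w how E hdiag hcard hE T π
      intro e he
      have h3 : π (MvPolynomial.map (algebraMap S F) (inS o w xS e)) = 0 :=
        hπ _ (Ideal.subset_span ⟨⟨e, he⟩, rfl⟩)
      rw [map_inS] at h3
      exact h3
    obtain ⟨N, hN⟩ := h2
    refine ⟨N, ?_⟩
    apply clear_denoms (F := F)
    rw [map_pow, MvPolynomial.map_X]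
    exact hN
  choose N c hc A hA using h1
  let P : S := (∏ j, c j) * (MvPolynomial.X o - MvPolynomial.X w)
  have hP : P ≠ 0 := by
    refine mul_ne_zero (prod_ne_zero_iff.2 (fun j _ => hc j)) ?_
    rw [sub_ne_zero]
    intro h
    exact how (MvPolynomial.X_injective h)
  obtain ⟨x, hx⟩ : ∃ x : V → ℚ, MvPolynomial.eval x P ≠ 0 := by
    by_contra hcon
    push Not at hcon
    apply hP
    apply MvPolynomial.funext
    intro x
    rw [hcon x, map_zero]
  simp only [P, map_mul, map_prod, map_sub, MvPolynomial.eval_X, mul_ne_zero_iff,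
    prod_ne_zero_iff] at hx
  refine ⟨x, sub_ne_zero.1 hx.2, fun j => ⟨N j, ?_⟩⟩
  have h4 := congrArg (MvPolynomial.map (MvPolynomial.eval x)) (hA j)
  rw [map_mul, map_sum, map_pow, MvPolynomial.map_C, MvPolynomial.map_X] at h4
  have hcj : MvPolynomial.eval x (c j) ≠ 0 := hx.1 j (mem_univ _)
  have h5 : (MvPolynomial.X j : MvPolynomial (JJ o w) ℚ) ^ (N j) =
      MvPolynomial.C (MvPolynomial.eval x (c j))⁻¹ *
        (MvPolynomial.C (MvPolynomial.eval x (c j)) * MvPolynomial.X j ^ N j) := by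
    rw [← mul_assoc, ← MvPolynomial.C_mul, inv_mul_cancel₀ hcj, MvPolynomial.C_1, one_mul]
  rw [h5, h4]
  refine Ideal.mul_mem_left _ _ (sum_mem (fun i _ => ?_))
  rw [map_mul, map_inS]
  refine Ideal.mul_mem_left _ _ (Ideal.subset_span ⟨i, ?_⟩)
  simp [xS]

end Pool.Agent.H789R3
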