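import Mathlib
import Pool.Agent.H789R3.Homs
import Pool.Agent.H789R3.Spec

set_option autoImplicit false
set_option linter.style.haveILetI false
set_option linter.unusedSectionVars false

namespace Pool.Agent.H789R3

open Finset

variable {V : Type} [Fintype V] [DecidableEq V] (o w : V)

noncomputable def sP (x : V → ℚ) (v : V) : MvPolynomial (JJ o w) ℚ :=
  MvPolynomial.C (x v) + Yp o w ℚ v

noncomputable def tP (x : V → ℚ) (v : V) : MvPolynomial (JJ o w) ℚ :=
  MvPolynomial.C (x v) - Yp o w ℚ v + Xp o w ℚ v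

noncomputable def FP (x : V → ℚ) (u v : V) : MvPolynomial (JJ o w) ℚ :=
  (sP o w x u - sP o w x v) * (tP o w x u - tP o w x v)

noncomputable def hP (x : V → ℚ) (u v : V) : MvPolynomial (JJ o w) ℚ :=
  inP o w x u v + (Yp o w ℚ u - Yp o w ℚ v) * (Xp o w ℚ u - Xp o w ℚ v)

theorem FP_eq (x : V → ℚ) (u v : V) :
    FP o w x u v = MvPolynomial.C ((x u - x v) ^ 2) + hP o w x u v := by
  unfold FP hP inP sP tP
  rw [map_pow, map_sub]
  ring

theorem hP_comm (x : V → ℚ) (u v : V) : hP o w x u v = hP o w x v u := by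
  unfold hP
  rw [inP_comm]
  ring

noncomputable def hS (x : V → ℚ) : Sym2 V → MvPolynomial (JJ o w) ℚ :=
  Sym2.lift ⟨hP o w x, hP_comm o w x⟩

noncomputable def xsq (x : V → ℚ) : Sym2 V → ℚ :=
  Sym2.lift ⟨fun u v => (x u - x v) ^ 2, fun u v => by ring⟩

noncomputable def dC (q : V → Fin 2 → ℂ) : Sym2 V → ℂ :=
  Sym2.lift ⟨fun u v => ∑ i, (q u i - q v i) ^ 2, fun u v => by
    exact Finset.sum_congr rfl (fun k _ => by ring)⟩

/-- homomorphisms with prescribed values -/
theorem exists_hom (Y X : V → ℂ) (hYo : Y o = 0) (hYw : Y w = 0) (hXo : X o = 0) :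
    ∃ β : MvPolynomial (JJ o w) ℚ →+* ℂ, (∀ v, β (Yp o w ℚ v) = Y v) ∧
      ∀ v, β (Xp o w ℚ v) = X v := by
  refine ⟨(MvPolynomial.aeval (R := ℚ) (Sum.elim (fun v => Y v.1) (fun v => X v.1) :
    JJ o w → ℂ)).toRingHom, fun v => ?_, fun v => ?_⟩
  · change MvPolynomial.aeval _ (Yp o w ℚ v) = _
    unfold Yp
    split_ifs with h
    · rw [MvPolynomial.aeval_X]
      rfl
    · rw [map_zero]
      rw [not_and_or, not_not, not_not] at h
      rcases h with h | h
      · rw [h, hYo]
      · rw [h, hYw]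
  · change MvPolynomial.aeval _ (Xp o w ℚ v) = _
    unfold Xp
    split_ifs with h
    · rw [MvPolynomial.aeval_X]
      rfl
    · rw [map_zero]
      rw [not_not] at h
      rw [h, hXo]

theorem hom_C {J : Type} (β : MvPolynomial J ℚ →+* ℂ) (r : ℚ) :
    β (MvPolynomial.C r) = (r : ℂ) := by
  have h : β.comp MvPolynomial.C = algebraMap ℚ ℂ := Subsingleton.elim _ _
  exact RingHom.congr_fun h r

theorem hom_ext' {J : Type} (β β' : MvPolynomial J ℚ →+* ℂ)
    (h : ∀ j, β (MvPolynomial.X j) = β' (MvPolynomial.X j)) : β = β' :=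
  MvPolynomial.ringHom_ext (fun r => by rw [hom_C, hom_C]) h

theorem slice (x : V → ℚ) (hx : x o ≠ x w) (q : V → Fin 2 → ℂ)
    (hq : ∑ i, (q o i - q w i) ^ 2 ≠ 0) :
    ∃ β : MvPolynomial (JJ o w) ℚ →+* ℂ, ∀ u v, β (FP o w x u v) = ∑ i, (q u i - q v i) ^ 2 := by
  let S : V → ℂ := fun v => q v 0 + Complex.I * q v 1
  let T : V → ℂ := fun v => q v 0 - Complex.I * q v 1
  have hST : ∀ u v, (S u - S v) * (T u - T v) = ∑ i, (q u i - q v i) ^ 2 := by
    intro u v
    simp only [S, T, Fin.sum_univ_two]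
    ring_nf
    rw [Complex.I_sq]
    ring
  have hSow : S w - S o ≠ 0 := by
    intro h
    apply hq
    rw [← hST o w]
    have : S o - S w = 0 := by rw [← neg_sub, h, neg_zero]
    rw [this, zero_mul]
  have hxow : (x w : ℂ) - x o ≠ 0 := by
    rw [sub_ne_zero]
    intro h
    exact hx (Rat.cast_injective h).symm
  let α : ℂ := ((x w : ℂ) - x o) / (S w - S o)
  have hα : α ≠ 0 := div_ne_zero hxow hSow
  let S' : V → ℂ := fun v => α * (S v - S o) + x o
  let T' : V → ℂ := fun v => α⁻¹ * (T v - T o) + x o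
  have hS'o : S' o = x o := by simp [S']
  have hS'w : S' w = x w := by
    simp only [S', α]
    rw [div_mul_cancel₀ _ hSow]
    ring
  have hT'o : T' o = x o := by simp [T']
  obtain ⟨β, hβY, hβX⟩ := exists_hom o w (fun v => S' v - x v)
    (fun v => T' v - x v + (S' v - x v)) (by rw [hS'o, sub_self]) (by rw [hS'w, sub_self])
    (by rw [hS'o, hT'o]; ring)
  have hs : ∀ v, β (sP o w x v) = S' v := by
    intro v
    rw [sP, map_add, hβY, hom_C]
    ring
  have ht : ∀ v, β (tP o w x v) = T' v := by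
    intro v
    rw [tP, map_add, map_sub, hβY, hβX, hom_C]
    ring
  refine ⟨β, fun u v => ?_⟩
  rw [FP, map_mul, map_sub, map_sub, hs, hs, ht, ht, ← hST]
  simp only [S', T']
  have : α * α⁻¹ = 1 := mul_inv_cancel₀ hα
  linear_combination (S u - S v) * (T u - T v) * this

theorem realise (x : V → ℚ) (β : MvPolynomial (JJ o w) ℚ →+* ℂ) :
    ∃ q : V → Fin 2 → ℂ, ∀ u v, ∑ i, (q u i - q v i) ^ 2 = β (FP o w x u v) := by
  refine ⟨fun v i => if i = 0 then (β (sP o w x v) + β (tP o w x v)) / 2 else
    (β (sP o w x v) - β (tP o w x v)) / (2 * Complex.I), fun u v => ?_⟩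
  rw [Fin.sum_univ_two]
  simp only [if_true, one_ne_zero, if_false, Fin.isValue]
  rw [FP, map_mul, map_sub, map_sub]
  have hI : Complex.I ≠ 0 := Complex.I_ne_zero
  have h1 : ∀ a b : ℂ, (a / (2 * Complex.I) - b / (2 * Complex.I)) ^ 2 = - (a - b) ^ 2 / 4 := by
    intro a b
    rw [← sub_div, div_pow, mul_pow, Complex.I_sq]
    ring
  rw [h1]
  ring

theorem three (x : V → ℚ) (hx : x o ≠ x w) (β : Fin 3 → (MvPolynomial (JJ o w) ℚ →+* ℂ))
    (h0 : β 0 (FP o w x o w) ≠ 0)
    (h : ∀ i u v, β i (FP o w x u v) = β 0 (FP o w x u v)) :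
    β 0 = β 1 ∨ β 0 = β 2 ∨ β 1 = β 2 := by
  have hxow : (x w : ℂ) - x o ≠ 0 := by
    rw [sub_ne_zero]
    intro h
    exact hx (Rat.cast_injective h).symm
  let s : Fin 3 → V → ℂ := fun i v => β i (sP o w x v) - x o
  let t : Fin 3 → V → ℂ := fun i v => β i (tP o w x v) - x o
  have hso : ∀ i, s i o = 0 := by
    intro i
    simp [s, sP, Yp, hom_C]
  have hto : ∀ i, t i o = 0 := by
    intro i
    simp [t, tP, Yp, Xp, hom_C]
  have hsw : ∀ i, s i w = x w - x o := by
    intro i
    simp [s, sP, Yp, hom_C]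
  have hst : ∀ i u v, (s i u - s i v) * (t i u - t i v) = β 0 (FP o w x u v) := by
    intro i u v
    rw [← h i, FP, map_mul, map_sub, map_sub]
    simp only [s, t]
    ring
  have htw : ∀ i, ((x w : ℂ) - x o) * t i w = β 0 (FP o w x o w) := by
    intro i
    rw [← hst i o w, hso, hto, hsw]
    ring
  have htw' : ∀ i, t i w = t 0 w := by
    intro i
    have h1 := htw i
    rw [← htw 0] at h1
    exact mul_left_cancel₀ hxow h1
  have ht0 : t 0 w ≠ 0 := by
    intro h1
    apply h0
    rw [← htw 0, h1, mul_zero]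
  set σ : ℂ := (x w : ℂ) - x o with hσ
  set τ : ℂ := t 0 w with hτ
  have hprod : ∀ i v, s i v * t i v = s 0 v * t 0 v := by
    intro i v
    have h1 := hst i v o
    have h2 := hst 0 v o
    rw [hso, hto] at h1 h2
    linear_combination h1 - h2
  have hsum : ∀ i v, τ * s i v + σ * t i v = τ * s 0 v + σ * t 0 v := by
    intro i v
    have h1 := hst i v w
    have h2 := hst 0 v w
    rw [hsw, htw'] at h1
    rw [hsw] at h2
    have h3 := hprod i v
    linear_combination h3 - h1 + h2
  have hcross : ∀ i u v, s i u * t i v + s i v * t i u = s 0 u * t 0 v + s 0 v * t 0 u := by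
    intro i u v
    have h1 := hst i u v
    have h2 := hst 0 u v
    have h3 := hprod i u
    have h4 := hprod i v
    linear_combination h3 + h4 - h1 + h2
  let δ : Fin 3 → V → ℂ := fun i v => τ * s i v - σ * t i v
  have hδ : ∀ i u v, δ i u * δ i v = δ 0 u * δ 0 v := by
    intro i u v
    have h1 := hsum i u
    have h2 := hsum i v
    have h3 := hcross i u v
    simp only [δ]
    linear_combination (τ * s i v + σ * t i v) * h1 + (τ * s 0 u + σ * t 0 u) * h2
      - 2 * τ * σ * h3
  have heq : ∀ i j, (∀ v, δ i v = δ j v) → β i = β j := by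
    intro i j hij
    have hs : ∀ v, s i v = s j v := by
      intro v
      have h1 := hsum i v
      have h2 := hsum j v
      have h3 := hij v
      simp only [δ] at h3
      have : τ * s i v = τ * s j v := by
        linear_combination (1 / 2) * h1 - (1 / 2) * h2 + (1 / 2) * h3
      exact mul_left_cancel₀ ht0 this
    have ht : ∀ v, t i v = t j v := by
      intro v
      have h1 := hsum i v
      have h2 := hsum j v
      have h3 := hij v
      simp only [δ] at h3
      have : σ * t i v = σ * t j v := by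
        linear_combination (1 / 2) * h1 - (1 / 2) * h2 - (1 / 2) * h3
      exact mul_left_cancel₀ hxow this
    have hY : ∀ v, β i (Yp o w ℚ v) = β j (Yp o w ℚ v) := by
      intro v
      have h1 := hs v
      simp only [s, sP, map_add, hom_C] at h1
      linear_combination h1
    have hX : ∀ v, β i (Xp o w ℚ v) = β j (Xp o w ℚ v) := by
      intro v
      have h1 := ht v
      simp only [t, tP, map_add, map_sub, hom_C] at h1
      linear_combination h1 + hY v
    apply hom_ext'
    rintro (⟨v, hv⟩ | ⟨v, hv⟩)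
    · have h1 := hY v
      unfold Yp at h1
      rw [dif_pos hv] at h1
      exact h1
    · have h1 := hX v
      unfold Xp at h1
      rw [dif_pos hv] at h1
      exact h1
  by_cases hz : ∀ v, δ 0 v = 0
  · left
    apply heq
    intro v
    have h1 := hδ 1 v v
    rw [hz v, mul_zero] at h1
    rw [hz v]
    exact (mul_self_eq_zero.1 h1).symm
  · push Not at hz
    obtain ⟨a, ha⟩ := hz
    have hsign : ∀ i, (∀ v, δ i v = δ 0 v) ∨ (∀ v, δ i v = - δ 0 v) := by
      intro i
      have h1 := hδ i a a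
      rcases mul_self_eq_mul_self_iff.1 h1 with h2 | h2
      · left
        intro v
        have h3 := hδ i a v
        rw [h2] at h3
        exact mul_left_cancel₀ ha h3
      · right
        intro v
        have h3 := hδ i a v
        rw [h2] at h3
        apply mul_left_cancel₀ ha
        linear_combination -h3
    rcases hsign 1 with h1 | h1
    · left
      exact heq 0 1 (fun v => (h1 v).symm)
    · rcases hsign 2 with h2 | h2
      · right; left
        exact heq 0 2 (fun v => (h2 v).symm)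
      · right; right
        exact heq 1 2 (fun v => by rw [h1, h2])

theorem finite_values {J : Type} [Fintype J] (h : J → MvPolynomial J ℚ)
    (hinj : Function.Injective (MvPolynomial.aeval h : MvPolynomial J ℚ →ₐ[ℚ] MvPolynomial J ℚ))
    (lam : MvPolynomial J ℚ →+* ℂ) (hlam : Function.Injective lam) (b : MvPolynomial J ℚ) :
    {z : ℂ | ∃ β : MvPolynomial J ℚ →+* ℂ, (∀ r, β (MvPolynomial.aeval h r) = lam r) ∧
      β b = z}.Finite := by
  classical
  have hind : AlgebraicIndependent ℚ h := hinj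
  have htb : IsTranscendenceBasis ℚ h := by
    apply hind.isTranscendenceBasis_of_trdeg_le_of_finite
    rw [MvPolynomial.trdeg_of_isDomain]
    simp
  obtain ⟨P, hP0, hP⟩ := htb.isAlgebraic.isAlgebraic b
  let lam' : Algebra.adjoin ℚ (Set.range h) →+* ℂ :=
    lam.comp (hind.aevalEquiv.symm : _ ≃+* _).toRingHom
  have hlam' : Function.Injective lam' := by
    intro x y hxy
    exact hind.aevalEquiv.symm.injective (hlam hxy)
  have hP' : P.map lam' ≠ 0 := (Polynomial.map_ne_zero_iff hlam').2 hP0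
  refine Set.Finite.subset (Polynomial.rootSet_finite (P.map lam') ℂ) ?_
  rintro z ⟨β, hβ, rfl⟩
  rw [Polynomial.mem_rootSet]
  refine ⟨hP', ?_⟩
  rw [Polynomial.aeval_def, Polynomial.eval₂_map]
  have hcomp : (algebraMap ℂ ℂ).comp lam' =
      β.comp (algebraMap (Algebra.adjoin ℚ (Set.range h)) (MvPolynomial J ℚ)) := by
    ext y
    obtain ⟨y, rfl⟩ := hind.aevalEquiv.surjective y
    change lam (hind.aevalEquiv.symm (hind.aevalEquiv y)) = β (hind.aevalEquiv y : MvPolynomial J ℚ)
    rw [AlgEquiv.symm_apply_apply, ← hβ]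
    rfl
  rw [hcomp, ← Polynomial.hom_eval₂]
  rw [Polynomial.aeval_def] at hP
  rw [hP, map_zero]

end Pool.Agent.H789R3
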