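import Mathlib
import Pool.Agent.H789R3.Slice
import Pool.Agent.H789R3.Real

set_option autoImplicit false
set_option linter.style.haveILetI false
set_option linter.unusedSectionVars false

namespace Pool.Agent.H789R3

open Finset

variable {V : Type} [Fintype V] [DecidableEq V] (o w : V)

/-- weights -/
def wt : JJ o w → ℕ := Sum.elim (fun _ => 1) (fun _ => 2)

theorem wt_cases (j : JJ o w) : wt o w j = 1 ∨ wt o w j = 2 := by
  rcases j with j | j
  · left; rfl
  · right; rfl

theorem Yp_wh (v : V) : MvPolynomial.IsWeightedHomogeneous (wt o w) (Yp o w ℚ v) 1 := by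
  unfold Yp
  split_ifs with h
  · exact MvPolynomial.isWeightedHomogeneous_X ℚ (wt o w) _
  · exact MvPolynomial.isWeightedHomogeneous_zero ℚ (wt o w) 1

theorem Xp_wh (v : V) : MvPolynomial.IsWeightedHomogeneous (wt o w) (Xp o w ℚ v) 2 := by
  unfold Xp
  split_ifs with h
  · exact MvPolynomial.isWeightedHomogeneous_X ℚ (wt o w) _
  · exact MvPolynomial.isWeightedHomogeneous_zero ℚ (wt o w) 2

theorem wh_sub {J : Type} {wt : J → ℕ} {n : ℕ} {p q : MvPolynomial J ℚ}
    (hp : MvPolynomial.IsWeightedHomogeneous wt p n)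
    (hq : MvPolynomial.IsWeightedHomogeneous wt q n) :
    MvPolynomial.IsWeightedHomogeneous wt (p - q) n := by
  rw [← MvPolynomial.mem_weightedHomogeneousSubmodule] at hp hq ⊢
  exact Submodule.sub_mem _ hp hq

theorem inP_wh (x : V → ℚ) (u v : V) :
    MvPolynomial.IsWeightedHomogeneous (wt o w) (inP o w x u v) 2 := by
  unfold inP
  apply wh_sub
  · have h1 := (MvPolynomial.isWeightedHomogeneous_C (wt o w) (x u - x v)).mul
      (wh_sub (Xp_wh o w u) (Xp_wh o w v))
    rw [zero_add] at h1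
    exact h1
  · have h1 := (wh_sub (Yp_wh o w u) (Yp_wh o w v)).pow 2
    exact h1

theorem wh_FF {J : Type} [Fintype J] [DecidableEq J] {wt : J → ℕ} {n : ℕ} {p : MvPolynomial J ℚ}
    (hp : MvPolynomial.IsWeightedHomogeneous wt p n) : p ∈ FF wt ℚ n := by
  rw [mem_FF]
  intro m hm
  exact (hp (MvPolynomial.mem_support_iff.1 hm)).ge

theorem card_ne (o : V) : Fintype.card {v : V // v ≠ o} = Fintype.card V - 1 := by
  rw [Fintype.card_subtype_compl, Fintype.card_subtype_eq]

theorem card_ne2 (how : o ≠ w) :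
    Fintype.card {v : V // v ≠ o ∧ v ≠ w} = Fintype.card V - 2 := by
  rw [Fintype.card_subtype]
  have : (Finset.univ.filter (fun v : V => v ≠ o ∧ v ≠ w)) = (Finset.univ.erase o).erase w := by
    ext v; simp [and_comm]
  rw [this, Finset.card_erase_of_mem (by simp [how.symm]), Finset.card_erase_of_mem (by simp)]
  rw [Finset.card_univ]; omega

theorem card_wt (how : o ≠ w) :
    Fintype.card {i : JJ o w // wt o w i = 1} = Fintype.card V - 2 := by
  rw [← card_ne2 o w how, Fintype.card_subtype, Finset.card_filter, Fintype.sum_sum_type]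
  simp [wt]

noncomputable def dpS : Sym2 V → MvPolynomial (V × Fin 2) ℚ := Sym2.lift ⟨dpoly, dpoly_comm⟩

theorem aeval_dpS (q : V → Fin 2 → ℂ) (e : Sym2 V) :
    MvPolynomial.aeval (R := ℚ) (fun x : V × Fin 2 => q x.1 x.2) (dpS e) = dC q e := by
  induction e using Sym2.ind with
  | _ u v =>
    change MvPolynomial.aeval (R := ℚ) (fun x : V × Fin 2 => q x.1 x.2) (dpoly u v) =
      ∑ i, (q u i - q v i) ^ 2
    simp [dpoly]

theorem FP_hS (x : V → ℚ) (β : MvPolynomial (JJ o w) ℚ →+* ℂ) (q : V → Fin 2 → ℂ)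
    (h : ∀ u v, β (FP o w x u v) = ∑ i, (q u i - q v i) ^ 2) (e : Sym2 V) :
    β (hS o w x e) = dC q e - (xsq x e : ℂ) := by
  induction e using Sym2.ind with
  | _ u v =>
    change β (hP o w x u v) = ∑ i, (q u i - q v i) ^ 2 - (((x u - x v) ^ 2 : ℚ) : ℂ)
    rw [← h, FP_eq, map_add, hom_C]
    ring

theorem main_lower (E : Finset (Sym2 V)) (how : s(o, w) ∈ E) (hdiag : ∀ e ∈ E, ¬ e.IsDiag)
    (hcard : E.card + 3 = 2 * Fintype.card V)
    (hE : ∀ S : Finset V, 2 ≤ S.card →
      (E.filter (fun e => ∀ v ∈ e, v ∈ S)).card + 3 ≤ 2 * S.card)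
    (p : V → Fin 2 → ℂ)
    (hp : Function.Injective (MvPolynomial.aeval (R := ℚ) (fun x : V × Fin 2 => p x.1 x.2)))
    (hpow : dC p s(o, w) ≠ 0) :
    {D : V → V → ℂ | ∃ q : V → Fin 2 → ℂ, (∀ e ∈ E, dC q e = dC p e) ∧
      D = fun u v => ∑ i, (q u i - q v i) ^ 2}.Finite ∧
    2 ^ (Fintype.card V - 2) ≤ 2 * {D : V → V → ℂ | ∃ q : V → Fin 2 → ℂ,
      (∀ e ∈ E, dC q e = dC p e) ∧ D = fun u v => ∑ i, (q u i - q v i) ^ 2}.ncard := by
  classical
  have hne : o ≠ w := by
    rintro rfl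
    exact hdiag _ how rfl
  obtain ⟨x, hx, hN⟩ := exists_special o w hne E hdiag hcard hE
  have hcardJ : Fintype.card (JJ o w) = Fintype.card E := by
    rw [Fintype.card_sum, card_ne2 o w hne, card_ne, Fintype.card_coe]
    have : 1 < Fintype.card V := Fintype.one_lt_card_iff.2 ⟨o, w, hne⟩
    omega
  let ρ : JJ o w ≃ E := Fintype.equivOfCardEq hcardJ
  let q0 : JJ o w → MvPolynomial (JJ o w) ℚ := fun j => inS o w x (ρ j).1
  let h0 : JJ o w → MvPolynomial (JJ o w) ℚ := fun j => hS o w x (ρ j).1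
  have hq : ∀ e, ∀ m ∈ (q0 e).support, Finsupp.weight (wt o w) m = 2 := by
    intro e m hm
    have h1 : MvPolynomial.IsWeightedHomogeneous (wt o w) (q0 e) 2 := by
      simp only [q0]
      generalize (ρ e).1 = e'
      induction e' using Sym2.ind with
      | _ u v => exact inP_wh o w x u v
    exact h1 (MvPolynomial.mem_support_iff.1 hm)
  have hh : ∀ e, h0 e - q0 e ∈ FF (wt o w) ℚ 3 := by
    intro e
    simp only [h0, q0]
    generalize (ρ e).1 = e'
    induction e' using Sym2.ind with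
    | _ u v =>
      change hP o w x u v - inP o w x u v ∈ _
      rw [hP, add_sub_cancel_left]
      have h1 := FF_mul (wt o w) (wh_FF (wh_sub (Yp_wh o w u) (Yp_wh o w v)))
        (wh_FF (wh_sub (Xp_wh o w u) (Xp_wh o w v)))
      exact h1
  have hX : ∀ j, ∃ N, (MvPolynomial.X j : MvPolynomial (JJ o w) ℚ) ^ N ∈
      Ideal.span (Set.range q0) := by
    intro j
    obtain ⟨N, hN'⟩ := hN j
    refine ⟨N, ?_⟩
    have h1 : Set.range q0 = Set.range (fun e : E => inS o w x e.1) :=
      ρ.surjective.range_comp (fun e : E => inS o w x e.1)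
    rw [h1]
    exact hN'
  have hinjB := aeval_injective (wt o w) (wt_cases o w) q0 h0 hq hh hX
  let lam : MvPolynomial (JJ o w) ℚ →+* ℂ :=
    (MvPolynomial.aeval (R := ℚ) (fun j : JJ o w => dC p (ρ j).1 - (xsq x (ρ j).1 : ℂ))).toRingHom
  have hlamX : ∀ j, lam (MvPolynomial.X j) = dC p (ρ j).1 - (xsq x (ρ j).1 : ℂ) := by
    intro j
    change MvPolynomial.aeval _ (MvPolynomial.X j) = _
    rw [MvPolynomial.aeval_X]
  have hlam : Function.Injective lam := by
    rw [injective_iff_map_eq_zero]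
    intro Ψ hΨ
    let g : JJ o w → MvPolynomial (V × Fin 2) ℚ := fun j =>
      dpS (ρ j).1 - MvPolynomial.C (xsq x (ρ j).1)
    have hg : ∀ (q : V → Fin 2 → ℂ) (j : JJ o w),
        MvPolynomial.aeval (R := ℚ) (fun x : V × Fin 2 => q x.1 x.2) (g j) =
        dC q (ρ j).1 - (xsq x (ρ j).1 : ℂ) := by
      intro q j
      simp only [g]
      rw [map_sub, aeval_dpS, MvPolynomial.aeval_C]
      rfl
    have hg2 : ∀ (q : V → Fin 2 → ℂ), MvPolynomial.aeval (R := ℚ) (fun x : V × Fin 2 => q x.1 x.2)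
        (MvPolynomial.aeval g Ψ) =
        MvPolynomial.aeval (fun j : JJ o w => dC q (ρ j).1 - (xsq x (ρ j).1 : ℂ)) Ψ := by
      intro q
      have h1 : (fun j : JJ o w => dC q (ρ j).1 - (xsq x (ρ j).1 : ℂ)) =
        fun j => MvPolynomial.aeval (R := ℚ) (fun x : V × Fin 2 => q x.1 x.2) (g j) := by
        funext j
        rw [hg]
      rw [h1, ← MvPolynomial.comp_aeval_apply]
    have h2 : MvPolynomial.aeval g Ψ = 0 := by
      apply hp
      rw [hg2, map_zero]
      exact hΨ
    apply hinjB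
    rw [map_zero]
    apply MvPolynomial.funext
    intro r
    rw [map_zero]
    let β : MvPolynomial (JJ o w) ℚ →+* ℂ := (algebraMap ℚ ℂ).comp (MvPolynomial.eval r)
    obtain ⟨q, hq'⟩ := realise o w x β
    have h3 := hg2 q
    rw [h2, map_zero] at h3
    have h4 : (fun j : JJ o w => dC q (ρ j).1 - (xsq x (ρ j).1 : ℂ)) = fun j => β (h0 j) := by
      funext j
      exact (FP_hS o w x β q (fun u v => (hq' u v).symm) (ρ j).1).symm
    rw [h4] at h3
    have h5 : β (MvPolynomial.aeval h0 Ψ) = MvPolynomial.aeval (fun j => β (h0 j)) Ψ := by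
      have h6 : (β.comp (MvPolynomial.aeval h0 : MvPolynomial (JJ o w) ℚ →ₐ[ℚ] _).toRingHom) =
          (MvPolynomial.aeval (R := ℚ) (fun j => β (h0 j))).toRingHom := by
        apply hom_ext'
        intro j
        change β (MvPolynomial.aeval h0 (MvPolynomial.X j)) =
          MvPolynomial.aeval (R := ℚ) (fun j => β (h0 j)) (MvPolynomial.X j)
        rw [MvPolynomial.aeval_X, MvPolynomial.aeval_X]
      exact RingHom.congr_fun h6 Ψ
    rw [← h3] at h5
    exact (algebraMap ℚ ℂ).injective (h5.trans (map_zero _).symm)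
  -- every solution comes from a homomorphism
  have hback : ∀ q : V → Fin 2 → ℂ, (∀ e ∈ E, dC q e = dC p e) →
      ∃ β : MvPolynomial (JJ o w) ℚ →+* ℂ, (∀ r, β (MvPolynomial.aeval h0 r) = lam r) ∧
        ∀ u v, β (FP o w x u v) = ∑ i, (q u i - q v i) ^ 2 := by
    intro q hqe
    have h1 : ∑ i, (q o i - q w i) ^ 2 ≠ 0 := by
      have h2 := hqe _ how
      change ∑ i, (q o i - q w i) ^ 2 = _ at h2
      rw [h2]
      exact hpow
    obtain ⟨β, hβ⟩ := slice o w x hx q h1
    refine ⟨β, fun r => ?_, hβ⟩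
    have h6 : (β.comp (MvPolynomial.aeval h0 : MvPolynomial (JJ o w) ℚ →ₐ[ℚ] _).toRingHom) =
        lam := by
      apply hom_ext'
      intro j
      change β (MvPolynomial.aeval h0 (MvPolynomial.X j)) = _
      rw [MvPolynomial.aeval_X, hlamX]
      simp only [h0]
      rw [FP_hS o w x β q hβ, hqe _ (ρ j).2]
    exact RingHom.congr_fun h6 r
  have hfin : {D : V → V → ℂ | ∃ q : V → Fin 2 → ℂ, (∀ e ∈ E, dC q e = dC p e) ∧
      D = fun u v => ∑ i, (q u i - q v i) ^ 2}.Finite := by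
    have hZ : ∀ u v, {z : ℂ | ∃ β : MvPolynomial (JJ o w) ℚ →+* ℂ,
        (∀ r, β (MvPolynomial.aeval h0 r) = lam r) ∧ β (FP o w x u v) = z}.Finite :=
      fun u v => finite_values h0 hinjB lam hlam _
    have hfin2 : {D : V → V → ℂ | ∀ u, D u ∈ {f : V → ℂ | ∀ v, f v ∈
        {z : ℂ | ∃ β : MvPolynomial (JJ o w) ℚ →+* ℂ,
        (∀ r, β (MvPolynomial.aeval h0 r) = lam r) ∧ β (FP o w x u v) = z}}}.Finite :=
      Set.Finite.pi' (fun u => Set.Finite.pi' (fun v => hZ u v))
    refine hfin2.subset ?_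
    rintro _ ⟨q, hqe, rfl⟩
    obtain ⟨β, hβ1, hβ2⟩ := hback q hqe
    intro u v
    exact ⟨β, hβ1, hβ2 u v⟩
  refine ⟨hfin, ?_⟩
  obtain ⟨Φ, hΦinj, hΦ⟩ := many_homs (wt o w) (wt_cases o w) q0 h0 hq hh hX lam hlam
  let D : Fin (2 ^ (Fintype.card {i : JJ o w // wt o w i = 1})) → (V → V → ℂ) :=
    fun i u v => Φ i (FP o w x u v)
  have hDmem : ∀ i, D i ∈ {D : V → V → ℂ | ∃ q : V → Fin 2 → ℂ, (∀ e ∈ E, dC q e = dC p e) ∧
      D = fun u v => ∑ i, (q u i - q v i) ^ 2} := by
    intro i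
    obtain ⟨q, hq'⟩ := realise o w x (Φ i)
    refine ⟨q, fun e he => ?_, ?_⟩
    · obtain ⟨j, hj⟩ := ρ.surjective ⟨e, he⟩
      have h1 := hΦ i (MvPolynomial.X j)
      rw [MvPolynomial.aeval_X, hlamX] at h1
      simp only [h0] at h1
      rw [FP_hS o w x (Φ i) q (fun u v => (hq' u v).symm), hj] at h1
      exact sub_left_injective h1
    · funext u v
      exact (hq' u v).symm
  have hfib : ∀ a ∈ univ.image D, (univ.filter (fun i => D i = a)).card ≤ 2 := by
    intro a _
    by_contra hcon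
    rw [not_le, Finset.two_lt_card] at hcon
    obtain ⟨i, hi, j, hj, l, hl, hij, hil, hjl⟩ := hcon
    rw [Finset.mem_filter] at hi hj hl
    have hDij : ∀ u v, Φ j (FP o w x u v) = Φ i (FP o w x u v) := fun u v =>
      congrFun (congrFun (hj.2.trans hi.2.symm) u) v
    have hDil : ∀ u v, Φ l (FP o w x u v) = Φ i (FP o w x u v) := fun u v =>
      congrFun (congrFun (hl.2.trans hi.2.symm) u) v
    have h00 : Φ i (FP o w x o w) ≠ 0 := by
      obtain ⟨q, hq', hq''⟩ := hDmem i
      have h1 : Φ i (FP o w x o w) = ∑ i, (q o i - q w i) ^ 2 :=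
        congrFun (congrFun hq'' o) w
      rw [h1]
      have h2 := hq' _ how
      change ∑ i, (q o i - q w i) ^ 2 = _ at h2
      rw [h2]
      exact hpow
    have h3 := three o w x hx ![Φ i, Φ j, Φ l] h00 (by
      intro a u v
      fin_cases a
      · rfl
      · exact hDij u v
      · exact hDil u v)
    rcases h3 with h3 | h3 | h3
    · exact hij (hΦinj h3)
    · exact hil (hΦinj h3)
    · exact hjl (hΦinj h3)
  have h1 := Finset.card_le_mul_card_image (f := D) univ 2 hfib
  rw [Finset.card_univ, Fintype.card_fin] at h1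
  rw [← card_wt o w hne]
  refine h1.trans (Nat.mul_le_mul_left 2 ?_)
  rw [← Set.ncard_coe_finset]
  refine Set.ncard_le_ncard ?_ hfin
  intro y hy
  rw [Finset.mem_coe, Finset.mem_image] at hy
  obtain ⟨i, -, rfl⟩ := hy
  exact hDmem i

end Pool.Agent.H789R3
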