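import Mathlib
import Pool.Agent.H789R3.Real

set_option autoImplicit false
set_option linter.style.haveILetI false

open Cardinal

namespace Pool.Agent.H789R3

variable {V : Type}

theorem algebraic_aux {J : Type} [Finite J] (z : J → MvPolynomial J ℚ)
    (h : ∀ j, IsAlgebraic (Algebra.adjoin ℚ (Set.range z)) (MvPolynomial.X j : MvPolynomial J ℚ)) :
    AlgebraicIndependent ℚ z := by
  haveI halg : Algebra.IsAlgebraic (Algebra.adjoin ℚ (Set.range z)) (MvPolynomial J ℚ) := by
    refine ⟨fun x => ?_⟩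
    induction x using MvPolynomial.induction_on with
    | C r =>
      have : (MvPolynomial.C r : MvPolynomial J ℚ) =
          algebraMap (Algebra.adjoin ℚ (Set.range z)) (MvPolynomial J ℚ)
            (algebraMap ℚ _ r) := by
        rw [← IsScalarTower.algebraMap_apply]; rfl
      rw [this]
      exact isAlgebraic_algebraMap _
    | add p q hp hq => exact hp.add hq
    | mul_X p j hp => exact hp.mul (h j)
  refine (Algebra.IsAlgebraic.isTranscendenceBasis_of_le_trdeg_of_finite ℚ z ?_).1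
  rw [MvPolynomial.trdeg_of_isDomain]
  simp

theorem trdeg_ge [Fintype V] (o w : V) (how : o ≠ w) :
    #({v : V // v ≠ o} ⊕ {v : V // v ≠ o ∧ v ≠ w}) ≤ Algebra.trdeg ℚ (RR V) := by
  classical
  let J := {v : V // v ≠ o} ⊕ {v : V // v ≠ o ∧ v ≠ w}
  let θ : V → Fin 2 → MvPolynomial J ℚ := fun v k =>
    if k = 0 then (if h : v ≠ o then MvPolynomial.X (Sum.inl ⟨v, h⟩) else 0)
    else (if h : v ≠ o ∧ v ≠ w then MvPolynomial.X (Sum.inr ⟨v, h⟩) else 0)
  let f : RR V →ₐ[ℚ] MvPolynomial J ℚ :=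
    (MvPolynomial.aeval (fun x : V × Fin 2 => θ x.1 x.2)).comp (RR V).val
  let y : J → RR V := Sum.elim (fun v => dR o v.1) (fun v => dR w v.1)
  have hf : ∀ u v, f (dR u v) = (θ u 0 - θ v 0) ^ 2 + (θ u 1 - θ v 1) ^ 2 := by
    intro u v
    simp [f, dR, dpoly, Fin.sum_univ_two]
  have ho0 : θ o 0 = 0 := by simp [θ]
  have ho1 : θ o 1 = 0 := by simp [θ]
  have hw1 : θ w 1 = 0 := by simp [θ]
  have hw0 : θ w 0 ≠ 0 := by
    simp only [θ, if_true]
    rw [dif_pos (Ne.symm how)]
    exact MvPolynomial.X_ne_zero _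
  let B0 := Algebra.adjoin ℚ (Set.range (f ∘ y))
  have hz : ∀ j, f (y j) ∈ B0 := fun j => Algebra.subset_adjoin ⟨j, rfl⟩
  have hB : ∀ x ∈ B0, IsAlgebraic B0 (x : MvPolynomial J ℚ) := fun x hx =>
    isAlgebraic_algebraMap (⟨x, hx⟩ : B0)
  have hzl : ∀ v (h : v ≠ o), θ v 0 ^ 2 + θ v 1 ^ 2 ∈ B0 := by
    intro v h
    have := hz (Sum.inl ⟨v, h⟩)
    simp only [y, Sum.elim_inl] at this
    rw [hf, ho0, ho1] at this
    convert this using 1
    ring
  have hzr : ∀ v (h : v ≠ o ∧ v ≠ w), (θ w 0 - θ v 0) ^ 2 + θ v 1 ^ 2 ∈ B0 := by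
    intro v h
    have := hz (Sum.inr ⟨v, h⟩)
    simp only [y, Sum.elim_inr] at this
    rw [hf, hw1] at this
    convert this using 1
    ring
  have aw0 : IsAlgebraic B0 (θ w 0) := by
    apply IsAlgebraic.of_pow (n := 2) (by norm_num)
    apply hB
    have := hzl w (Ne.symm how)
    rw [hw1] at this
    simpa using this
  have av0 : ∀ v, IsAlgebraic B0 (θ v 0) := by
    intro v
    by_cases h1 : v = o
    · rw [h1, ho0]; exact isAlgebraic_zero
    by_cases h2 : v = w
    · rw [h2]; exact aw0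
    have h3 : (2 * θ w 0) * θ v 0 ∈ B0 := by
      have e : (2 * θ w 0) * θ v 0 = (θ v 0 ^ 2 + θ v 1 ^ 2) + (θ w 0 ^ 2 + θ w 1 ^ 2)
          - ((θ w 0 - θ v 0) ^ 2 + θ v 1 ^ 2) := by rw [hw1]; ring
      rw [e]
      exact sub_mem (add_mem (hzl v h1) (hzl w (Ne.symm how))) (hzr v ⟨h1, h2⟩)
    have h4 : IsAlgebraic B0 (2 * θ w 0) := by
      have : (2 : MvPolynomial J ℚ) * θ w 0 = θ w 0 + θ w 0 := by ring
      rw [this]
      exact aw0.add aw0
    exact IsAlgebraic.of_mul (mem_nonZeroDivisors_of_ne_zero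
      (mul_ne_zero two_ne_zero hw0)) h4 (hB _ h3)
  have av1 : ∀ v, IsAlgebraic B0 (θ v 1) := by
    intro v
    by_cases h1 : v = o
    · rw [h1, ho1]; exact isAlgebraic_zero
    apply IsAlgebraic.of_pow (n := 2) (by norm_num)
    have e : θ v 1 ^ 2 = (θ v 0 ^ 2 + θ v 1 ^ 2) - θ v 0 ^ 2 := by ring
    rw [e]
    exact (hB _ (hzl v h1)).sub ((av0 v).pow 2)
  have hind : AlgebraicIndependent ℚ (f ∘ y) := by
    apply algebraic_aux
    rintro (⟨v, h⟩ | ⟨v, h⟩)
    · have := av0 v
      simp only [θ, if_true] at this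
      rw [dif_pos h] at this
      exact this
    · have := av1 v
      simp only [θ, one_ne_zero, if_false] at this
      rw [dif_pos h] at this
      exact this
  exact (AlgebraicIndependent.of_comp f hind).cardinalMk_le_trdeg

variable (G : SimpleGraph V)

noncomputable instance algAR : Algebra (MvPolynomial G.edgeSet ℚ) (RR V) :=
  (MvPolynomial.aeval (R := ℚ) (fun e : G.edgeSet => dS e.1)).toRingHom.toAlgebra

theorem algAR_X (e : G.edgeSet) :
    algebraMap (MvPolynomial G.edgeSet ℚ) (RR V) (MvPolynomial.X e) = dS e.1 := by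
  change (MvPolynomial.aeval (R := ℚ) (fun e : G.edgeSet => dS e.1)) (MvPolynomial.X e) = _
  simp

instance towerAR : IsScalarTower ℚ (MvPolynomial G.edgeSet ℚ) (RR V) :=
  IsScalarTower.of_algebraMap_eq (fun r => by
    change _ = (MvPolynomial.aeval (R := ℚ) (fun e : G.edgeSet => dS e.1)) (algebraMap ℚ _ r)
    rw [AlgHom.commutes])

theorem comp_eq_iff (φ ψ : RR V →+* ℂ) :
    φ.comp (algebraMap (MvPolynomial G.edgeSet ℚ) (RR V)) =
      ψ.comp (algebraMap (MvPolynomial G.edgeSet ℚ) (RR V)) ↔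
    ∀ u v, G.Adj u v → φ (dR u v) = ψ (dR u v) := by
  constructor
  · intro h u v huv
    have h1 := RingHom.congr_fun h (MvPolynomial.X (⟨s(u, v), huv⟩ : G.edgeSet))
    simp only [RingHom.comp_apply, algAR_X] at h1
    exact h1
  · intro h
    apply MvPolynomial.ringHom_ext
    · intro r
      have h2 : ((φ.comp (algebraMap (MvPolynomial G.edgeSet ℚ) (RR V))).comp MvPolynomial.C)
          = ((ψ.comp (algebraMap (MvPolynomial G.edgeSet ℚ) (RR V))).comp MvPolynomial.C) :=
        Subsingleton.elim _ _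
      exact RingHom.congr_fun h2 r
    · rintro ⟨e, he⟩
      simp only [RingHom.comp_apply, algAR_X]
      induction e using Sym2.ind with
      | _ u v => exact h u v he

end Pool.Agent.H789R3
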